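import Pool.Agent.FrobTate.Dominant

/-!
# Blocks of embeddings and subfields
-/

namespace Pool.Agent.FrobTate

open Finset Module Pool.Agent.CMParity Polynomial IntermediateField

/-- Algebraic numbers fixed by all endomorphisms of `ℂ` fixing the image of an embedding lie in
this image. -/
theorem mem_range_of_fixed {K : Type} [Field K] [NumberField K] (χ : K →+* ℂ) {x : ℂ}
    (hx : IsIntegral ℚ x) (h : ∀ σ : ℂ →+* ℂ, σ.comp χ = χ → σ x = x) : ∃ a, χ a = x := by
  classical
  let : Algebra K ℂ := χ.toAlgebra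
  have htower : IsScalarTower ℚ K ℂ := IsScalarTower.of_algebraMap_eq' (Subsingleton.elim _ _)
  have hxK : IsIntegral K x := hx.tower_top
  by_contra hcon
  have hdeg : 1 < (minpoly K x).natDegree := by
    have h1 := minpoly.natDegree_pos hxK
    have h2 : (minpoly K x).natDegree ≠ 1 := by
      rw [Ne, minpoly.natDegree_eq_one_iff]
      rintro ⟨q, hq⟩
      exact hcon ⟨q, hq⟩
    omega
  have hsep : (minpoly K x).Separable := (minpoly.irreducible hxK).separable
  have hcard : Fintype.card ((minpoly K x).rootSet ℂ) = (minpoly K x).natDegree :=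
    Polynomial.card_rootSet_eq_natDegree hsep (IsAlgClosed.splits _)
  have hne : minpoly K x ≠ 0 := minpoly.ne_zero hxK
  rw [← hcard] at hdeg
  have hxr : x ∈ (minpoly K x).rootSet ℂ := by
    rw [Polynomial.mem_rootSet]
    exact ⟨hne, minpoly.aeval K x⟩
  obtain ⟨⟨y, hy⟩, hyx⟩ := Fintype.exists_ne_of_one_lt_card hdeg ⟨x, hxr⟩
  have hyx' : y ≠ x := fun h => hyx (Subtype.ext h)
  rw [Polynomial.mem_rootSet] at hy
  let f : IntermediateField.adjoin K {x} →ₐ[K] ℂ :=
    (IntermediateField.algHomAdjoinIntegralEquiv K hxK).symm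
      ⟨y, Polynomial.mem_aroots.mpr hy⟩
  have hf : f (IntermediateField.AdjoinSimple.gen K x) = y :=
    IntermediateField.algHomAdjoinIntegralEquiv_symm_apply_gen K hxK _
  have h2 : Algebra.IsAlgebraic K (IntermediateField.adjoin K {x}) :=
    IntermediateField.isAlgebraic_adjoin_simple hxK
  have h3 : Algebra.IsAlgebraic ℚ (IntermediateField.adjoin K {x}) :=
    Algebra.IsAlgebraic.trans ℚ K _
  obtain ⟨σ, hσ⟩ := GHC.exists_extension (K := IntermediateField.adjoin K {x}) f.toRingHom
  have h4 := hσ (IntermediateField.AdjoinSimple.gen K x)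
  change σ _ = f _ at h4
  have h5 : σ.comp χ = χ := by
    refine RingHom.ext fun a => ?_
    have h6 := hσ (algebraMap K _ a)
    have h7 : f (algebraMap K _ a) = algebraMap K ℂ a := f.commutes a
    change σ (algebraMap K ℂ a) = f _ at h6
    rw [h7] at h6
    exact h6
  rw [hf, IntermediateField.AdjoinSimple.algebraMap_gen, h σ h5] at h4
  exact hyx' h4.symm

variable {K : Type} [Field K] [NumberField K]

/-- The subfield on which the embeddings in `C` agree with `χ₁`. -/
def agree (C : Set (K →+* ℂ)) (χ₁ : K →+* ℂ) : IntermediateField ℚ K where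
  carrier := {a | ∀ χ ∈ C, χ a = χ₁ a}
  mul_mem' := by
    intro a b ha hb χ hχ
    rw [map_mul, map_mul, ha χ hχ, hb χ hχ]
  add_mem' := by
    intro a b ha hb χ hχ
    rw [_root_.map_add, _root_.map_add, ha χ hχ, hb χ hχ]
  algebraMap_mem' := by
    intro r χ _
    simp
  inv_mem' := by
    intro a ha χ hχ
    rw [map_inv₀, map_inv₀, ha χ hχ]

theorem agree_mem {π : K} (hgen : Algebra.adjoin ℚ {π} = ⊤) {B : Set (K →+* ℂ)} {χ₁ : K →+* ℂ}
    (hχ₁ : χ₁ ∈ B)
    (hblock : ∀ σ : ℂ →+* ℂ, σ.comp χ₁ ∈ B → ∀ χ ∈ B, σ.comp χ ∈ B) {χ' : K →+* ℂ}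
    (hχ' : ∀ a ∈ agree B χ₁, χ' a = χ₁ a) : χ' ∈ B := by
  classical
  have hfinB : B.Finite := Set.toFinite B
  let B' : Finset (K →+* ℂ) := hfinB.toFinset
  have hB' : ∀ χ, χ ∈ B' ↔ χ ∈ B := fun χ => hfinB.mem_toFinset
  let f : ℂ[X] := ∏ χ ∈ B', (X - C (χ π))
  have hext : ∀ χ ψ : K →+* ℂ, χ π = ψ π → χ = ψ := by
    intro χ ψ h
    have h1 : χ.toRatAlgHom = ψ.toRatAlgHom := by
      refine AlgHom.ext_of_adjoin_eq_top hgen ?_
      rintro _ rfl
      exact h
    refine RingHom.ext fun a => ?_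
    exact congrArg (fun f : K →ₐ[ℚ] ℂ => f a) h1
  -- (a)
  have ha : ∀ σ : ℂ →+* ℂ, σ.comp χ₁ ∈ B → f.map σ = f := by
    intro σ hσ
    have himg : B'.image (fun χ => σ.comp χ) = B' := by
      refine Finset.eq_of_subset_of_card_le ?_ ?_
      · intro χ hχ
        obtain ⟨ψ, hψ, rfl⟩ := Finset.mem_image.mp hχ
        exact (hB' _).mpr (hblock σ hσ ψ ((hB' ψ).mp hψ))
      · rw [Finset.card_image_of_injective]
        intro χ ψ h
        refine RingHom.ext fun a => σ.injective ?_
        exact congrArg (fun g : K →+* ℂ => g a) h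
    change (∏ χ ∈ B', (X - C (χ π))).map σ = ∏ χ ∈ B', (X - C (χ π))
    conv_rhs => rw [← himg]
    rw [Polynomial.map_prod, Finset.prod_image]
    · refine Finset.prod_congr rfl fun χ _ => ?_
      simp
    · intro χ _ ψ _ h
      refine RingHom.ext fun a => σ.injective ?_
      exact congrArg (fun g : K →+* ℂ => g a) h
  have hcoeff : ∀ (σ : ℂ →+* ℂ), σ.comp χ₁ ∈ B → ∀ i, σ (f.coeff i) = f.coeff i := by
    intro σ hσ i
    have h1 := congrArg (fun g : ℂ[X] => g.coeff i) (ha σ hσ)
    simpa using h1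
  -- integrality
  have hint : ∀ i, IsIntegral ℚ (f.coeff i) := by
    have h1 : ∀ χ : K →+* ℂ, IsIntegral ℚ (χ π) := by
      intro χ
      have h2 : IsIntegral ℚ π := Algebra.IsIntegral.isIntegral π
      exact h2.map χ.toRatAlgHom
    have h2 : ∀ S : Finset (K →+* ℂ), ∀ i, IsIntegral ℚ ((∏ χ ∈ S, (X - C (χ π))).coeff i) := by
      intro S
      induction S using Finset.induction_on with
      | empty =>
        intro i
        rw [Finset.prod_empty, Polynomial.coeff_one]
        split_ifs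
        · exact isIntegral_one
        · exact isIntegral_zero
      | insert a S ha ih =>
        intro i
        rw [Finset.prod_insert ha, sub_mul, Polynomial.coeff_sub, Polynomial.coeff_C_mul]
        refine IsIntegral.sub ?_ ((h1 a).mul (ih i))
        cases i with
        | zero =>
          rw [Polynomial.coeff_X_mul_zero]
          exact isIntegral_zero
        | succ i =>
          rw [Polynomial.coeff_X_mul]
          exact ih i
    exact h2 B'
  -- (b)
  have hb : ∀ i, ∃ e : K, χ₁ e = f.coeff i := by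
    intro i
    refine mem_range_of_fixed χ₁ (hint i) fun σ hσ => hcoeff σ ?_ i
    rw [hσ]
    exact hχ₁
  choose e he using hb
  -- (c)
  have hc : ∀ i, e i ∈ agree B χ₁ := by
    intro i χ hχ
    obtain ⟨σ, hσ⟩ := exists_comp_eq χ₁ χ
    rw [← hσ, RingHom.comp_apply, he i]
    exact hcoeff σ (by rw [hσ]; exact hχ) i
  -- (d)
  obtain ⟨σ, hσ⟩ := exists_comp_eq χ₁ χ'
  have hd : f.map σ = f := by
    ext i
    rw [Polynomial.coeff_map, ← he i]
    have h1 := hχ' (e i) (hc i)
    rw [← hσ] at h1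
    exact h1
  have hroot : f.eval (χ₁ π) = 0 := by
    rw [Polynomial.eval_prod]
    refine Finset.prod_eq_zero ((hB' χ₁).mpr hχ₁) ?_
    simp
  have hroot' : f.eval (χ' π) = 0 := by
    have h1 : (f.map σ).eval (σ (χ₁ π)) = σ (f.eval (χ₁ π)) := Polynomial.eval_map_apply _ _
    rw [hd, hroot, _root_.map_zero] at h1
    rw [← hσ]
    exact h1
  rw [Polynomial.eval_prod, Finset.prod_eq_zero_iff] at hroot'
  obtain ⟨χ, hχ, h1⟩ := hroot'
  rw [Polynomial.eval_sub, Polynomial.eval_X, Polynomial.eval_C, sub_eq_zero] at h1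
  rw [hext χ' χ h1]
  exact (hB' χ).mp hχ

end Pool.Agent.FrobTate
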