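import Pool.Agent.FrobTate.Crit
import Pool.Agent.CMParity.Rational

/-!
# Weil numbers, slopes and relations
-/

namespace Pool.Agent.FrobTate

open Finset Module

section Embeddings

/-- The algebraic numbers in `ℂ`. -/
noncomputable abbrev AA : IntermediateField ℚ ℂ := algebraicClosure ℚ ℂ

theorem mem_AA {K : Type*} [Field K] [NumberField K] (χ : K →+* ℂ) (a : K) : χ a ∈ AA := by
  rw [mem_algebraicClosure_iff]
  exact IsAlgebraic.algHom χ.toRatAlgHom (Algebra.IsAlgebraic.isAlgebraic (R := ℚ) a)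

/-- An embedding of a number field in `ℂ` has values in the algebraic numbers. -/
noncomputable def lft {K : Type*} [Field K] [NumberField K] (χ : K →+* ℂ) : K →+* AA :=
  χ.codRestrict AA (mem_AA χ)

theorem lft_apply {K : Type*} [Field K] [NumberField K] (χ : K →+* ℂ) (a : K) :
    ((lft χ a : AA) : ℂ) = χ a := rfl

theorem exists_embedding (Ω : Type*) [Field Ω] [IsAlgClosed Ω] [CharZero Ω] :
    Nonempty (AA →+* Ω) := by
  have : Algebra.IsAlgebraic ℚ AA := algebraicClosure.isAlgebraic ℚ ℂ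
  exact ⟨(IsAlgClosed.lift (R := ℚ) (S := AA) (M := Ω)).toRingHom⟩

/-- The embeddings in `ℂ` correspond to the embeddings in any algebraically closed field. -/
theorem comp_lft_bijective {K : Type*} [Field K] [NumberField K] {Ω : Type*} [Field Ω]
    [IsAlgClosed Ω] [CharZero Ω] (ip : AA →+* Ω) :
    Function.Bijective (fun χ : K →+* ℂ => ip.comp (lft χ)) := by
  have hinj : Function.Injective (fun χ : K →+* ℂ => ip.comp (lft χ)) := by
    intro χ ψ h
    refine RingHom.ext fun a => ?_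
    have h1 := congrArg (fun f : K →+* Ω => f a) h
    have h2 : lft χ a = lft ψ a := ip.injective h1
    rw [← lft_apply, h2, lft_apply]
  refine (Fintype.bijective_iff_injective_and_card _).mpr ⟨hinj, ?_⟩
  rw [NumberField.Embeddings.card K ℂ, NumberField.Embeddings.card K Ω]

end Embeddings

section Norm

/-- A multiplicative relation between numbers of given absolute values. -/
theorem sum_wt_eq_zero {Ω : Type*} [NormedField Ω] (ip : AA →+* Ω) (q : ℕ)
    (hq0 : 0 < ‖(q : Ω)‖) (hq1 : ‖(q : Ω)‖ < 1) {N : ℕ} {X : Type*} (S : Multiset X)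
    (val : X → AA) (wt : X → ℤ)
    (h : ∀ x ∈ S, ‖ip (val x)‖ ^ (2 * N) = ‖(q : Ω)‖ ^ ((N : ℤ) + wt x)) {j n : ℕ}
    (hcard : S.card = 2 * j) (hn : n ≠ 0) (hprod : (S.map val).prod ^ n = (q : AA) ^ (n * j)) :
    (S.map wt).sum = 0 := by
  have h1 : ∀ T : Multiset X, (∀ x ∈ T, ‖ip (val x)‖ ^ (2 * N) = ‖(q : Ω)‖ ^ ((N : ℤ) + wt x)) →
      ‖ip (T.map val).prod‖ ^ (2 * N) = ‖(q : Ω)‖ ^ ((N : ℤ) * T.card + (T.map wt).sum) := by
    intro T
    induction T using Multiset.induction_on with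
    | empty => simp
    | cons a T ih =>
      intro hT
      rw [Multiset.map_cons, Multiset.prod_cons, map_mul, norm_mul, mul_pow,
        hT a (Multiset.mem_cons_self _ _), ih fun x hx => hT x (Multiset.mem_cons_of_mem hx),
        ← zpow_add₀ hq0.ne', Multiset.map_cons, Multiset.sum_cons, Multiset.card_cons]
      congr 1
      push_cast
      ring
  have h2 := h1 S h
  have h3 : ‖ip (S.map val).prod‖ ^ n = ‖(q : Ω)‖ ^ (n * j) := by
    rw [← norm_pow, ← map_pow, hprod, map_pow, map_natCast, norm_pow]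
  have h4 : (‖(q : Ω)‖ ^ ((N : ℤ) * S.card + (S.map wt).sum)) ^ n =
      ‖(q : Ω)‖ ^ ((n : ℤ) * j * (2 * N)) := by
    rw [← h2, ← pow_mul, mul_comm (2 * N) n, pow_mul, h3, ← pow_mul, ← zpow_natCast]
    congr 1
  rw [← zpow_natCast, ← zpow_mul] at h4
  have h5 := zpow_right_injective₀ hq0 hq1.ne h4
  rw [hcard] at h5
  have h6 : (S.map wt).sum * n = 0 := by
    push_cast at h5
    linear_combination h5
  exact (mul_eq_zero.mp h6).resolve_right (by exact_mod_cast hn)

end Norm

section Action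

variable {ι : Type} (K : ι → Type) [∀ i, Field (K i)]

/-- The embeddings of the fields `K i` in `ℂ`. -/
abbrev Emb : Type := Σ i, (K i →+* ℂ)

variable {K}

/-- The action of an endomorphism of `ℂ`. -/
def eact (σ : ℂ →+* ℂ) (x : Emb K) : Emb K := ⟨x.1, σ.comp x.2⟩

theorem eact_inj (σ : ℂ →+* ℂ) : Function.Injective (eact (K := K) σ) := by
  rintro ⟨i, χ⟩ ⟨i', χ'⟩ h
  have h1 : i = i' := congrArg Sigma.fst h
  subst h1
  have h2 : σ.comp χ = σ.comp χ' := by
    simpa [eact] using h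
  have h3 : χ = χ' := RingHom.ext fun a => σ.injective (congrArg (fun f : K i →+* ℂ => f a) h2)
  rw [h3]

/-- Complex conjugation. -/
noncomputable def einv (x : Emb K) : Emb K := ⟨x.1, (starRingEnd ℂ).comp x.2⟩

theorem einv_einv (x : Emb K) : einv (einv x) = x := by
  obtain ⟨i, χ⟩ := x
  have : (starRingEnd ℂ).comp ((starRingEnd ℂ).comp χ) = χ := by
    ext a
    simp
  change (⟨i, (starRingEnd ℂ).comp ((starRingEnd ℂ).comp χ)⟩ : Emb K) = ⟨i, χ⟩
  rw [this]

variable [Finite (Emb K)]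

/-- The action as a permutation. -/
noncomputable def eperm (σ : ℂ →+* ℂ) : Equiv.Perm (Emb K) :=
  Equiv.ofBijective (eact σ) ((Finite.injective_iff_bijective).mp (eact_inj σ))

theorem eperm_apply (σ : ℂ →+* ℂ) (x : Emb K) : eperm σ x = ⟨x.1, σ.comp x.2⟩ := rfl

variable (K) in
/-- The group of permutations of the embeddings induced by endomorphisms of `ℂ`. -/
noncomputable def egal : Subgroup (Equiv.Perm (Emb K)) where
  carrier := {π | ∃ σ : ℂ →+* ℂ, π = eperm σ}
  one_mem' := ⟨RingHom.id ℂ, by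
    ext1 x
    rw [eperm_apply, RingHom.id_comp]
    rfl⟩
  mul_mem' := by
    rintro _ _ ⟨σ, rfl⟩ ⟨τ, rfl⟩
    refine ⟨σ.comp τ, ?_⟩
    ext1 x
    rw [Equiv.Perm.mul_apply, eperm_apply, eperm_apply, eperm_apply, RingHom.comp_assoc]
  inv_mem' := by
    rintro _ ⟨σ, rfl⟩
    have hpow : ∀ n : ℕ, ∃ τ : ℂ →+* ℂ, (eperm (K := K) σ) ^ n = eperm τ := by
      intro n
      induction n with
      | zero =>
        refine ⟨RingHom.id ℂ, ?_⟩
        ext1 x
        rw [eperm_apply, RingHom.id_comp, pow_zero]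
        rfl
      | succ n ih =>
        obtain ⟨τ, hτ⟩ := ih
        refine ⟨τ.comp σ, ?_⟩
        rw [pow_succ, hτ]
        ext1 x
        rw [Equiv.Perm.mul_apply, eperm_apply, eperm_apply, eperm_apply, RingHom.comp_assoc]
    obtain ⟨n, hn0, hn⟩ := isOfFinOrder_iff_pow_eq_one.mp (isOfFinOrder_of_finite (eperm (K := K) σ))
    obtain ⟨τ, hτ⟩ := hpow (n - 1)
    refine ⟨τ, ?_⟩
    rw [← hτ]
    refine inv_eq_of_mul_eq_one_right ?_
    rw [← pow_succ', Nat.sub_add_cancel hn0]
    exact hn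

end Action

section Weil

variable {ι : Type} [Fintype ι] {K : ι → Type} [∀ i, Field (K i)] [∀ i, NumberField (K i)]
  {π : ∀ i, K i} {q : ℕ}

instance : Finite (Emb K) := inferInstance

/-- Two embeddings that agree on a generator are equal. -/
theorem emb_ext {L : Type*} [Field L] [CharZero L] {i : ι} (hgen : Algebra.adjoin ℚ {π i} = ⊤)
    {χ ψ : K i →+* L} (h : χ (π i) = ψ (π i)) : χ = ψ := by
  have h1 : χ.toRatAlgHom = ψ.toRatAlgHom := by
    refine AlgHom.ext_of_adjoin_eq_top hgen ?_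
    rintro _ rfl
    exact h
  refine RingHom.ext fun a => ?_
  exact congrArg (fun f : K i →ₐ[ℚ] L => f a) h1

theorem conj_eq (hq : q ≠ 0) (hweil : ∀ i, ∀ χ : K i →+* ℂ, ‖χ (π i)‖ ^ 2 = q) (i : ι)
    (χ : K i →+* ℂ) : (starRingEnd ℂ) (χ (π i)) = q / χ (π i) := by
  have h1 := hweil i χ
  have h2 : χ (π i) ≠ 0 := by
    intro h0
    rw [h0, norm_zero] at h1
    apply hq
    have h3 : (0 : ℝ) = q := by
      rw [← h1]
      ring
    exact_mod_cast h3.symm
  rw [eq_div_iff h2, ← Complex.normSq_eq_conj_mul_self, Complex.normSq_eq_norm_sq, h1]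
  simp

theorem eperm_comm (hq : q ≠ 0) (hweil : ∀ i, ∀ χ : K i →+* ℂ, ‖χ (π i)‖ ^ 2 = q)
    (hgen : ∀ i, Algebra.adjoin ℚ {π i} = ⊤) :
    ∀ g ∈ egal K, ∀ x, g (einv x) = einv (g x) := by
  rintro _ ⟨σ, rfl⟩ ⟨i, χ⟩
  have h1 : σ.comp ((starRingEnd ℂ).comp χ) = (starRingEnd ℂ).comp (σ.comp χ) := by
    apply emb_ext (hgen i)
    rw [RingHom.comp_apply, RingHom.comp_apply, RingHom.comp_apply, conj_eq hq hweil i χ,
      conj_eq hq hweil i (σ.comp χ), map_div₀, map_natCast]
    rfl
  change (⟨i, σ.comp ((starRingEnd ℂ).comp χ)⟩ : Emb K) = ⟨i, (starRingEnd ℂ).comp (σ.comp χ)⟩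
  rw [h1]

/-- The reduction of the theorem on relations to a statement on permutations. -/
theorem count_eq (hq : q ≠ 0) (hweil : ∀ i, ∀ χ : K i →+* ℂ, ‖χ (π i)‖ ^ 2 = q)
    (hgen : ∀ i, Algebra.adjoin ℚ {π i} = ⊤) {Ω : Type*} [NormedField Ω] (ip : AA →+* Ω)
    (hq0 : 0 < ‖(q : Ω)‖) (hq1 : ‖(q : Ω)‖ < 1) {N : ℕ} (w : Emb K → ℤ)
    (hslope : ∀ x : Emb K, ‖ip (lft x.2 (π x.1))‖ ^ (2 * N) = ‖(q : Ω)‖ ^ ((N : ℤ) + w x))
    [Fintype (Emb K)] [DecidableEq (Emb K)]
    (hcrit : (∀ x, w (einv x) = - w x) → ∀ c : Emb K → ℤ, (∀ x, c (einv x) = - c x) →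
      (∀ g ∈ egal K, ∑ x, c x * w (g x) = 0) → c = 0)
    {j n : ℕ} (hn : n ≠ 0) (S : Multiset (Emb K)) (hcard : S.card = 2 * j)
    (hprod : (S.map fun x => x.2 (π x.1)).prod ^ n = (q : ℂ) ^ (n * j)) (x : Emb K) :
    S.count (einv x) = S.count x := by
  have hwinv : ∀ x, w (einv x) = - w x := by
    intro x
    have h1 := hslope (einv x)
    have h2 := hslope x
    have h3 : (lft (einv x).2 (π (einv x).1) : AA) = q / lft x.2 (π x.1) := by
      apply Subtype.ext
      rw [lft_apply]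
      change (starRingEnd ℂ) (x.2 (π x.1)) = _
      rw [conj_eq hq hweil]
      simp [lft_apply]
    rw [h3, map_div₀, map_natCast, norm_div, div_pow, h2] at h1
    have h4 : ‖(q : Ω)‖ ^ (2 * N) / ‖(q : Ω)‖ ^ ((N : ℤ) + w x) =
        ‖(q : Ω)‖ ^ ((N : ℤ) - w x) := by
      rw [← zpow_natCast, ← zpow_sub₀ hq0.ne']
      congr 1
      push_cast
      ring
    rw [h4] at h1
    have h5 := zpow_right_injective₀ hq0 hq1.ne h1
    linarith
  have hcomm := eperm_comm (K := K) hq hweil hgen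
  -- the relation given by the product
  have hsum : ∀ σ : ℂ →+* ℂ, ∑ x, (S.count x : ℤ) * w (eperm σ x) = 0 := by
    intro σ
    have h1 : (S.map fun x => w (eperm σ x)).sum = 0 := by
      refine sum_wt_eq_zero ip q hq0 hq1 S (fun x => lft (σ.comp x.2) (π x.1))
        (fun x => w (eperm σ x)) (fun x _ => hslope (eperm σ x)) hcard hn ?_
      apply Subtype.ext
      have h2 : ∀ T : Multiset (Emb K), (((T.map fun x => lft (σ.comp x.2) (π x.1)).prod : AA) : ℂ)
          = σ (T.map fun x => x.2 (π x.1)).prod := by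
        intro T
        induction T using Multiset.induction_on with
        | empty => simp
        | cons a T ih =>
          rw [Multiset.map_cons, Multiset.prod_cons, Multiset.map_cons, Multiset.prod_cons,
            map_mul, ← ih]
          rfl
      have h3 : (((S.map fun x => lft (σ.comp x.2) (π x.1)).prod ^ n : AA) : ℂ) =
          σ ((S.map fun x => x.2 (π x.1)).prod ^ n) := by
        rw [map_pow, ← h2]
        rfl
      rw [h3, hprod, map_pow, map_natCast]
      simp
    rw [Finset.sum_multiset_map_count] at h1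
    rw [← h1]
    symm
    have h4 : ∀ x : Emb K, (S.count x : ℤ) * w (eperm σ x) = S.count x • w (eperm σ x) := by
      intro x
      rw [nsmul_eq_mul]
    simp_rw [h4]
    refine Finset.sum_subset (Finset.subset_univ _) ?_
    intro x _ hx
    rw [Multiset.mem_toFinset] at hx
    rw [Multiset.count_eq_zero_of_notMem hx, zero_smul]
  have hc := hcrit hwinv (fun x => (S.count x : ℤ) - S.count (einv x)) (by
    intro x
    simp only [einv_einv]
    ring) (by
    rintro _ ⟨σ, rfl⟩
    have h1 : ∑ x, (S.count (einv x) : ℤ) * w (eperm σ x) =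
        - ∑ x, (S.count x : ℤ) * w (eperm σ x) := by
      rw [← Finset.sum_neg_distrib]
      refine Finset.sum_bij' (fun x _ => einv x) (fun x _ => einv x) ?_ ?_ ?_ ?_ ?_
      · intro x _
        exact Finset.mem_univ _
      · intro x _
        exact Finset.mem_univ _
      · intro x _
        exact einv_einv x
      · intro x _
        exact einv_einv x
      · intro x _
        rw [hcomm _ ⟨σ, rfl⟩, hwinv]
        ring
    simp only [sub_mul, Finset.sum_sub_distrib]
    rw [h1, hsum, neg_zero, sub_zero])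
  have h1 : (S.count x : ℤ) - S.count (einv x) = 0 := congrFun hc x
  omega

end Weil

end Pool.Agent.FrobTate
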