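import Pool.Agent.CMParity.Lattice
import Pool.Agent.CMParity.Sign

/-!
# Two criteria for the absence of relations between the translates of a weight function
-/

namespace Pool.Agent.FrobTate

open Finset Pool.Agent.CMParity

section Lattice

variable {X : Type*} [Fintype X] (H : Subgroup (Equiv.Perm X)) (inv : X → X) (w : X → ℤ)

/-- The lattice of odd relations. -/
def relL : AddSubgroup (X → ℤ) where
  carrier := {c | (∀ x, c (inv x) = - c x) ∧ ∀ π ∈ H, ∑ x, c x * w (π x) = 0}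
  zero_mem' := ⟨fun x => by simp, fun π _ => by simp⟩
  add_mem' := by
    rintro a b ⟨ha, ha'⟩ ⟨hb, hb'⟩
    refine ⟨fun x => ?_, fun π hπ => ?_⟩
    · rw [Pi.add_apply, Pi.add_apply, ha, hb]
      ring
    · simp only [Pi.add_apply, add_mul, sum_add_distrib]
      rw [ha' π hπ, hb' π hπ, add_zero]
  neg_mem' := by
    rintro a ⟨ha, ha'⟩
    refine ⟨fun x => ?_, fun π hπ => ?_⟩
    · rw [Pi.neg_apply, Pi.neg_apply, ha]
    · simp only [Pi.neg_apply, neg_mul, sum_neg_distrib]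
      rw [ha' π hπ, neg_zero]

variable {H inv w}

theorem relL_stab (hcomm : ∀ π ∈ H, ∀ x, π (inv x) = inv (π x)) (g : H) (c : X → ℤ)
    (hc : c ∈ relL H inv w) : (fun x => c (g • x)) ∈ relL H inv w := by
  obtain ⟨h1, h2⟩ := hc
  refine ⟨fun x => ?_, fun π hπ => ?_⟩
  · change c (g.1 (inv x)) = - c (g.1 x)
    rw [hcomm g.1 g.2, h1]
  · have h3 := h2 (π * g.1⁻¹) (H.mul_mem hπ (H.inv_mem g.2))
    rw [← h3]
    refine Fintype.sum_equiv g.1 _ _ fun x => ?_
    change c (g.1 x) * _ = c (g.1 x) * _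
    rw [Equiv.Perm.mul_apply]
    have h5 : g.1⁻¹ (g.1 x) = x := g.1.symm_apply_apply x
    rw [h5]

theorem relL_sat (ℓ : ℕ) (hℓ : ℓ ≠ 0) (c : X → ℤ)
    (hc : (fun x => (ℓ : ℤ) * c x) ∈ relL H inv w) : c ∈ relL H inv w := by
  obtain ⟨h1, h2⟩ := hc
  have hℓ' : (ℓ : ℤ) ≠ 0 := by exact_mod_cast hℓ
  refine ⟨fun x => ?_, fun π hπ => ?_⟩
  · have : (ℓ : ℤ) * c (inv x) = -((ℓ : ℤ) * c x) := h1 x
    apply mul_left_cancel₀ hℓ'
    rw [this]
    ring
  · have h3 := h2 π hπ
    have h4 : ∑ x, (ℓ : ℤ) * c x * w (π x) = (ℓ : ℤ) * ∑ x, c x * w (π x) := by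
      rw [mul_sum]
      exact sum_congr rfl fun x _ => mul_assoc _ _ _
    rw [h4] at h3
    exact (mul_eq_zero.mp h3).resolve_left hℓ'

theorem relL_half [DecidableEq X] (hinv : ∀ x, inv (inv x) = x)
    (hcomm : ∀ π ∈ H, ∀ x, π (inv x) = inv (π x))
    {Φ : Finset X} (hΦ : ∀ x, inv x ∈ Φ ↔ x ∉ Φ) (hw : ∀ x, w (inv x) = - w x) {c : X → ℤ}
    (hc : c ∈ relL H inv w) : ∀ π ∈ H, ∑ x ∈ Φ, c x * w (π x) = 0 := by
  obtain ⟨hodd', hrel'⟩ := hc
  intro π hπ
  have h1 := hrel' π hπ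
  rw [← Finset.sum_add_sum_compl Φ] at h1
  have h2 : ∑ x ∈ Φᶜ, c x * w (π x) = ∑ x ∈ Φ, c x * w (π x) := by
    refine Finset.sum_bij' (fun x _ => inv x) (fun x _ => inv x) ?_ ?_ ?_ ?_ ?_
    · intro x hx
      rw [Finset.mem_compl] at hx
      exact (hΦ x).mpr hx
    · intro x hx
      rw [Finset.mem_compl, hΦ]
      exact not_not.mpr hx
    · intro x _
      exact hinv x
    · intro x _
      exact hinv x
    · intro x _
      rw [hodd', hcomm π hπ, hw]
      ring
  rw [h2] at h1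
  linarith

end Lattice

/-- **Prime power criterion.** -/
theorem prime_power_criterion {X : Type*} [Fintype X] [DecidableEq X]
    (H : Subgroup (Equiv.Perm X)) (htr : ∀ x y, ∃ π ∈ H, π x = y)
    (inv : X → X) (hinv : ∀ x, inv (inv x) = x) (hcomm : ∀ π ∈ H, ∀ x, π (inv x) = inv (π x))
    (Φ : Finset X) (hΦ : ∀ x, inv x ∈ Φ ↔ x ∉ Φ) (ℓ : ℕ) [Fact ℓ.Prime] (k : ℕ)
    (hcard : Fintype.card X = 2 * ℓ ^ k) (w : X → ℤ) (hw : ∀ x, w (inv x) = - w x)
    (hH : ∀ ε : X → ℤ, (∀ x, ε x = 1 ∨ ε x = -1) → ¬ (ℓ : ℤ) ∣ ∑ x ∈ Φ, ε x * w x)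
    (c : X → ℤ) (hc : ∀ x, c (inv x) = - c x)
    (hrel : ∀ π ∈ H, ∑ x, c x * w (π x) = 0) : c = 0 := by
  classical
  by_contra hc0
  have hℓ : ℓ.Prime := Fact.out
  let P : Sylow ℓ H := default
  obtain ⟨c, hcL, ⟨x₀, hx₀⟩, hfix⟩ := exists_fixed_mod (X := X) (G := H) ℓ (P : Subgroup H)
    P.isPGroup' (relL H inv w) (relL_stab hcomm) (relL_sat ℓ hℓ.ne_zero) ⟨c, ⟨hc, hrel⟩, hc0⟩
  -- the action on the section
  have hrep : ∀ x, rep inv Φ x = x ∨ rep inv Φ x = inv x := by
    intro x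
    unfold rep
    split_ifs
    · left; rfl
    · right; rfl
  let : MulAction H {x // x ∈ Φ} :=
    { smul := fun π x => ⟨rep inv Φ (π.1 x), rep_mem hΦ _⟩
      one_smul := by
        rintro ⟨x, hx⟩
        apply Subtype.ext
        change rep inv Φ x = x
        exact rep_of_mem hx
      mul_smul := by
        rintro π σ ⟨x, hx⟩
        apply Subtype.ext
        change rep inv Φ (π.1 (σ.1 x)) = rep inv Φ (π.1 (rep inv Φ (σ.1 x)))
        rcases hrep (σ.1 x) with h | h
        · rw [h]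
        · rw [h, hcomm π.1 π.2, rep_inv hinv hΦ] }
  have hsmul : ∀ (π : H) (x : {x // x ∈ Φ}), (π • x).1 = rep inv Φ (π.1 x.1) := fun _ _ => rfl
  have hΦcard : Φ.card = ℓ ^ k := by
    have h1 : Φᶜ.card = Φ.card := by
      refine Finset.card_bij' (fun x _ => inv x) (fun x _ => inv x) ?_ ?_ ?_ ?_
      · intro x hx
        rw [Finset.mem_compl] at hx
        exact (hΦ x).mpr hx
      · intro x hx
        rw [Finset.mem_compl, hΦ]
        exact not_not.mpr hx
      · intro x _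
        exact hinv x
      · intro x _
        exact hinv x
    have h2 := Finset.card_add_card_compl Φ
    rw [h1, hcard] at h2
    omega
  have hpair : ∀ x y, ∃ g : P, (g : H).1 x = y ∨ (g : H).1 x = inv y := by
    intro x y
    let x' : {x // x ∈ Φ} := ⟨rep inv Φ x, rep_mem hΦ _⟩
    let y' : {x // x ∈ Φ} := ⟨rep inv Φ y, rep_mem hΦ _⟩
    have horb : MulAction.orbit H x' = Set.univ := by
      ext z
      refine ⟨fun _ => Set.mem_univ _, fun _ => ?_⟩
      obtain ⟨π, hπ, h⟩ := htr x'.1 z.1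
      refine ⟨⟨π, hπ⟩, Subtype.ext ?_⟩
      change rep inv Φ (π x'.1) = z.1
      rw [h]
      exact rep_of_mem z.2
    have h1 := sylow_orbit P x' k (by
      rw [horb, Set.ncard_univ, Nat.card_eq_fintype_card, Fintype.card_coe, hΦcard])
    have h2 : y' ∈ MulAction.orbit P x' := by
      rw [h1, horb]
      exact Set.mem_univ _
    obtain ⟨g, hg⟩ := h2
    have hg' : rep inv Φ ((g : H).1 (rep inv Φ x)) = rep inv Φ y := congrArg Subtype.val hg
    refine ⟨g, ?_⟩
    have key : ∀ a b, rep inv Φ a = rep inv Φ b → a = b ∨ a = inv b := by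
      intro a b hab
      rcases hrep a with h3 | h3 <;> rcases hrep b with h4 | h4
      · left; rw [← h3, hab, h4]
      · right; rw [← h3, hab, h4]
      · right; rw [← h4, ← hab, h3, hinv]
      · left; rw [← hinv a, ← h3, hab, h4, hinv]
    rcases hrep x with h3 | h3
    · rw [h3] at hg'
      exact key _ _ hg'
    · rw [h3, hcomm _ (g : H).2, rep_inv hinv hΦ] at hg'
      exact key _ _ hg'
  have hval : ∀ x, (ℓ : ℤ) ∣ c x - c x₀ ∨ (ℓ : ℤ) ∣ c x + c x₀ := by
    intro x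
    obtain ⟨g, hg | hg⟩ := hpair x₀ x
    · left
      have h1 := hfix g.1 g.2 x₀
      change (ℓ : ℤ) ∣ c (g.1.1 x₀) - c x₀ at h1
      rwa [hg] at h1
    · right
      have h1 := hfix g.1 g.2 x₀
      change (ℓ : ℤ) ∣ c (g.1.1 x₀) - c x₀ at h1
      rw [hg, hcL.1] at h1
      have h2 := (dvd_neg).mpr h1
      have h3 : -(-c x - c x₀) = c x + c x₀ := by ring
      rwa [h3] at h2
  let ε : X → ℤ := fun x => if (ℓ : ℤ) ∣ c x - c x₀ then 1 else -1
  have hε : ∀ x, ε x = 1 ∨ ε x = -1 := by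
    intro x
    change (if _ then (1 : ℤ) else -1) = 1 ∨ (if _ then (1 : ℤ) else -1) = -1
    split_ifs
    · left; rfl
    · right; rfl
  have hcε : ∀ x, (ℓ : ℤ) ∣ c x - c x₀ * ε x := by
    intro x
    by_cases h : (ℓ : ℤ) ∣ c x - c x₀
    · have h1 : ε x = 1 := if_pos h
      rw [h1, mul_one]
      exact h
    · have h1 : ε x = -1 := if_neg h
      rw [h1]
      have h2 := (hval x).resolve_left h
      have h3 : c x - c x₀ * -1 = c x + c x₀ := by ring
      rwa [h3]
  have h1 := relL_half hinv hcomm hΦ hw hcL 1 H.one_mem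
  have h2 : (ℓ : ℤ) ∣ c x₀ * ∑ x ∈ Φ, ε x * w x := by
    have h3 : c x₀ * ∑ x ∈ Φ, ε x * w x = ∑ x ∈ Φ, c x * w ((1 : Equiv.Perm X) x) -
        ∑ x ∈ Φ, (c x - c x₀ * ε x) * w x := by
      rw [← Finset.sum_sub_distrib, mul_sum]
      refine sum_congr rfl fun x _ => ?_
      rw [Equiv.Perm.one_apply]
      ring
    rw [h3, h1, zero_sub, dvd_neg]
    exact Finset.dvd_sum fun x _ => Dvd.dvd.mul_right (hcε x) _
  rcases (Nat.prime_iff_prime_int.mp hℓ).dvd_or_dvd h2 with h3 | h3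
  · exact hx₀ h3
  · exact hH ε hε h3

/-- **Parity criterion** for odd weights. -/
theorem odd_weight_criterion {X T : Type*} [Fintype X] [DecidableEq X]
    (H : Subgroup (Equiv.Perm X)) (cls : X → T) (hcls : ∀ π ∈ H, ∀ x, cls (π x) = cls x)
    (htr : ∀ x y, cls x = cls y → ∃ π ∈ H, π x = y)
    (hpow : ∀ x, ∃ n : ℕ, {y | cls y = cls x}.ncard = 2 ^ n)
    (inv : X → X) (hinv : ∀ x, inv (inv x) = x) (hcomm : ∀ π ∈ H, ∀ x, π (inv x) = inv (π x))
    (w : X → ℤ) (hwodd : ∀ x, Odd (w x)) (hw : ∀ x, w (inv x) = - w x)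
    (hodd : ∀ S : Set T, (∃ x, cls x ∈ S) → ∃ τ ∈ H,
      ∃ F : Finset X, (∀ x, x ∈ F ↔ 0 < w x ∧ cls x ∈ S ∧ w (τ x) < 0) ∧ Odd F.card)
    (c : X → ℤ) (hc : ∀ x, c (inv x) = - c x)
    (hrel : ∀ π ∈ H, ∑ x, c x * w (π x) = 0) : c = 0 := by
  classical
  by_contra hc0
  have : Fact (Nat.Prime 2) := ⟨Nat.prime_two⟩
  let P : Sylow 2 H := default
  obtain ⟨c, hcL, ⟨x₀, hx₀⟩, hfix⟩ := exists_fixed_mod (X := X) (G := H) 2 (P : Subgroup H)
    P.isPGroup' (relL H inv w) (relL_stab hcomm) (relL_sat 2 two_ne_zero) ⟨c, ⟨hc, hrel⟩, hc0⟩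
  have hwne : ∀ x, w x ≠ 0 := by
    intro x h0
    have := hwodd x
    rw [h0] at this
    exact absurd this (by decide)
  let Φ : Finset X := Finset.univ.filter fun x => 0 < w x
  have hΦm : ∀ x, x ∈ Φ ↔ 0 < w x := fun x => by
    rw [Finset.mem_filter]
    exact and_iff_right (Finset.mem_univ x)
  have hΦ : ∀ x, inv x ∈ Φ ↔ x ∉ Φ := by
    intro x
    rw [hΦm, hΦm, hw]
    have := hwne x
    omega
  -- `c` is constant on the classes modulo `2`
  have hcl : ∀ x y, cls x = cls y → ((2 : ℕ) : ℤ) ∣ c y - c x := by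
    intro x y hxy
    obtain ⟨n, hn⟩ := hpow x
    have horb : MulAction.orbit H x = {y | cls y = cls x} := by
      ext z
      constructor
      · rintro ⟨g, rfl⟩
        exact hcls g.1 g.2 x
      · intro hz
        obtain ⟨π, hπ, rfl⟩ := htr x z (Eq.symm hz)
        exact ⟨⟨π, hπ⟩, rfl⟩
    have h1 := sylow_orbit P x n (by rw [horb]; exact hn)
    have h2 : y ∈ MulAction.orbit P x := by
      rw [h1, horb]
      exact hxy.symm
    obtain ⟨g, rfl⟩ := h2
    exact hfix g.1 g.2 x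
  have hhalf := relL_half hinv hcomm hΦ hw hcL
  -- the support modulo `2`
  have hdvd : ∀ x, ((2 : ℕ) : ℤ) ∣ c x ↔ Even (c x) := by
    intro x
    rw [even_iff_two_dvd]
    norm_cast
  let S : Set T := {t | ∃ x, cls x = t ∧ ¬ Even (c x)}
  have hS : ∀ x, cls x ∈ S ↔ ¬ Even (c x) := by
    intro x
    constructor
    · rintro ⟨y, hy, hy'⟩ h1
      apply hy'
      have h2 := hcl x y hy.symm
      have h3 : Even (c y - c x) := by
        rw [even_iff_two_dvd]
        exact_mod_cast h2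
      have h4 := h3.add h1
      rwa [sub_add_cancel] at h4
    · intro h
      exact ⟨x, rfl, h⟩
  have hSinv : ∀ x, cls (inv x) ∈ S ↔ cls x ∈ S := by
    intro x
    rw [hS, hS, hcL.1 x, even_neg]
  obtain ⟨τ, hτ, F, hF, hFodd⟩ := hodd S ⟨x₀, (hS x₀).mpr (fun h => hx₀ ((hdvd x₀).mpr h))⟩
  have h1 := hhalf 1 H.one_mem
  have h2 := hhalf τ hτ
  -- the half differences
  have hd : ∀ x, ∃ d : ℤ, w x - w (τ x) = 2 * d := by
    intro x
    obtain ⟨a, ha⟩ := hwodd x
    obtain ⟨b, hb⟩ := hwodd (τ x)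
    exact ⟨a - b, by rw [ha, hb]; ring⟩
  choose d hd using hd
  have h3 : ∑ x ∈ Φ, c x * d x = 0 := by
    have h4 : 2 * ∑ x ∈ Φ, c x * d x = ∑ x ∈ Φ, c x * w ((1 : Equiv.Perm X) x) -
        ∑ x ∈ Φ, c x * w (τ x) := by
      rw [← Finset.sum_sub_distrib, mul_sum]
      refine sum_congr rfl fun x _ => ?_
      rw [Equiv.Perm.one_apply]
      linear_combination (-c x) * hd x
    rw [h1, h2] at h4
    linarith
  -- absolute values
  have h5 : ∑ x ∈ Φ.filter (fun x => cls x ∈ S), |w (τ x)| =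
      ∑ x ∈ Φ.filter (fun x => cls x ∈ S), |w x| := by
    have h6 : ∀ f : X → ℤ, (∀ x, f (inv x) = f x) →
        ∑ x ∈ Finset.univ.filter (fun x => cls x ∈ S), f x =
          2 * ∑ x ∈ Φ.filter (fun x => cls x ∈ S), f x := by
      intro f hf
      have h7 : Finset.univ.filter (fun x => cls x ∈ S) =
          Φ.filter (fun x => cls x ∈ S) ∪ Φᶜ.filter (fun x => cls x ∈ S) := by
        rw [← Finset.filter_union, Finset.union_compl]
      rw [h7, Finset.sum_union]
      · have h8 : ∑ x ∈ Φᶜ.filter (fun x => cls x ∈ S), f x =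
            ∑ x ∈ Φ.filter (fun x => cls x ∈ S), f x := by
          refine Finset.sum_bij' (fun x _ => inv x) (fun x _ => inv x) ?_ ?_ ?_ ?_ ?_
          · intro x hx
            rw [Finset.mem_filter, Finset.mem_compl] at hx
            rw [Finset.mem_filter]
            exact ⟨(hΦ x).mpr hx.1, (hSinv x).mpr hx.2⟩
          · intro x hx
            rw [Finset.mem_filter] at hx
            rw [Finset.mem_filter, Finset.mem_compl, hΦ]
            exact ⟨not_not.mpr hx.1, (hSinv x).mpr hx.2⟩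
          · intro x _
            exact hinv x
          · intro x _
            exact hinv x
          · intro x _
            exact (hf x).symm
        rw [h8]
        ring
      · rw [Finset.disjoint_left]
        intro x hx hx'
        rw [Finset.mem_filter] at hx hx'
        exact (Finset.mem_compl.mp hx'.1) hx.1
    have h7 := h6 (fun x => |w (τ x)|) (fun x => by
      change |w (τ (inv x))| = |w (τ x)|
      rw [hcomm τ hτ, hw, abs_neg])
    have h8 := h6 (fun x => |w x|) (fun x => by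
      change |w (inv x)| = |w x|
      rw [hw, abs_neg])
    have h9 : ∑ x ∈ Finset.univ.filter (fun x => cls x ∈ S), |w (τ x)| =
        ∑ x ∈ Finset.univ.filter (fun x => cls x ∈ S), |w x| := by
      refine Finset.sum_equiv τ ?_ ?_
      · intro x
        rw [Finset.mem_filter, Finset.mem_filter, hcls τ hτ]
        simp
      · intro x _
        rfl
    linarith
  have h6 : ∑ x ∈ Φ.filter (fun x => cls x ∈ S), d x =
      ∑ x ∈ Φ.filter (fun x => cls x ∈ S), (if w (τ x) < 0 then |w (τ x)| else 0) := by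
    have h7 : 2 * ∑ x ∈ Φ.filter (fun x => cls x ∈ S), d x =
        2 * ∑ x ∈ Φ.filter (fun x => cls x ∈ S), (if w (τ x) < 0 then |w (τ x)| else 0) := by
      have h8 : ∑ x ∈ Φ.filter (fun x => cls x ∈ S), (2 * d x) =
          ∑ x ∈ Φ.filter (fun x => cls x ∈ S), (|w x| - w (τ x)) := by
        refine sum_congr rfl fun x hx => ?_
        rw [Finset.mem_filter, hΦm] at hx
        rw [← hd x, abs_of_pos hx.1]
      have h9 : ∑ x ∈ Φ.filter (fun x => cls x ∈ S),
          (2 * (if w (τ x) < 0 then |w (τ x)| else 0)) =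
          ∑ x ∈ Φ.filter (fun x => cls x ∈ S), (|w (τ x)| - w (τ x)) := by
        refine sum_congr rfl fun x _ => ?_
        by_cases h : w (τ x) < 0
        · rw [if_pos h, abs_of_neg h]
          ring
        · rw [if_neg h, abs_of_nonneg (not_lt.mp h)]
          ring
      rw [mul_sum, mul_sum, h8, h9, Finset.sum_sub_distrib, Finset.sum_sub_distrib, h5]
    linarith
  -- the contradiction
  have h7 : ((∑ x ∈ Φ, c x * d x : ℤ) : ZMod 2) =
      ((∑ x ∈ Φ.filter (fun x => cls x ∈ S), d x : ℤ) : ZMod 2) := by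
    rw [Finset.sum_filter (fun x => cls x ∈ S) d, Int.cast_sum, Int.cast_sum]
    refine sum_congr rfl fun x _ => ?_
    rw [Int.cast_mul]
    by_cases h : cls x ∈ S
    · rw [if_pos h]
      have h8 := (hS x).mp h
      rw [Int.not_even_iff_odd] at h8
      obtain ⟨k, hk⟩ := h8
      rw [hk]
      push_cast
      have : (2 : ZMod 2) = 0 := rfl
      rw [this, zero_mul, zero_add, one_mul]
    · rw [if_neg h, Int.cast_zero]
      have h8 : Even (c x) := by
        by_contra h9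
        exact h ((hS x).mpr h9)
      obtain ⟨k, hk⟩ := h8
      rw [hk]
      push_cast
      have : (k : ZMod 2) + k = 0 := by
        rw [← two_mul]
        have : (2 : ZMod 2) = 0 := rfl
        rw [this, zero_mul]
      rw [this, zero_mul]
  have h8 : ((∑ x ∈ Φ.filter (fun x => cls x ∈ S),
      (if w (τ x) < 0 then |w (τ x)| else 0) : ℤ) : ZMod 2) = (F.card : ZMod 2) := by
    have h9 : F = (Φ.filter (fun x => cls x ∈ S)).filter (fun x => w (τ x) < 0) := by
      ext x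
      rw [hF, Finset.mem_filter, Finset.mem_filter, hΦm]
      tauto
    have h10 : ∑ x ∈ Φ.filter (fun x => cls x ∈ S), (if w (τ x) < 0 then |w (τ x)| else 0) =
        ∑ x ∈ F, |w (τ x)| := by
      rw [h9, Finset.sum_filter (fun x => w (τ x) < 0)]
    rw [h10]
    push_cast
    have h11 : ∀ x ∈ F, ((|w (τ x)| : ℤ) : ZMod 2) = 1 := by
      intro x _
      obtain ⟨k, hk⟩ := odd_abs.mpr (hwodd (τ x))
      rw [hk]
      push_cast
      have : (2 : ZMod 2) = 0 := rfl
      rw [this, zero_mul, zero_add]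
    rw [Finset.sum_congr rfl h11, Finset.sum_const, nsmul_one]
  rw [h3] at h7
  rw [h6] at h7
  rw [h8] at h7
  have h9 : (F.card : ZMod 2) = 1 := by
    obtain ⟨k, hk⟩ := hFodd
    rw [hk]
    push_cast
    have : (2 : ZMod 2) = 0 := rfl
    rw [this, zero_mul, zero_add]
  rw [h9, Int.cast_zero] at h7
  exact zero_ne_one h7

end Pool.Agent.FrobTate
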