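import Mathlib

/-!
# Tate classes for abelian varieties over finite fields

Let `A` be an abelian variety over the finite field with `q` elements and let `H = H^1(Ā, 𝕂)` be
its `ℓ`-adic cohomology with coefficients in `𝕂`, an algebraic closure of `ℚ_ℓ`, and let `F` be
the Frobenius on `H`. The cohomology algebra of `A` is the exterior algebra of `H`, on which the
Frobenius acts by the algebra endomorphism `ExteriorAlgebra.map F`.
-/

namespace Pool.Agent.FrobTate

variable {𝕂 H : Type*} [Field 𝕂] [AddCommGroup H] [Module 𝕂 H]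

/-- The (geometric) Frobenius of the field with `q ^ n` elements on the cohomology algebra. -/
noncomputable def frob (F : Module.End 𝕂 H) (n : ℕ) : Module.End 𝕂 (ExteriorAlgebra 𝕂 H) :=
  (ExteriorAlgebra.map F).toLinearMap ^ n

/-- The Tate classes of codimension `j` over the field with `q ^ n` elements: the elements `x` of
`H^{2j} = ⋀^{2j} H` with `F^n x = (q^n)^j x`. -/
noncomputable def tateClasses (F : Module.End 𝕂 H) (q : ℕ) (n j : ℕ) :
    Submodule 𝕂 (ExteriorAlgebra 𝕂 H) :=
  ⋀[𝕂]^(2 * j) H ⊓ (frob F n).eigenspace (((q ^ n) ^ j : ℕ) : 𝕂)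

end Pool.Agent.FrobTate
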