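import Pool.Agent.FrobTate.Transfer

/-!
# Tate classes: fields of `2`-power degree with independent discriminants
-/

namespace Pool.Agent.FrobTate

open Finset Module Pool.Agent.CMParity

section Padic

variable (p : ℕ) [Fact p.Prime]

theorem norm_q (a : ℕ) : ‖((p ^ a : ℕ) : PadicAlgCl p)‖ = ((p : ℝ)⁻¹) ^ a := by
  have h1 : ((p ^ a : ℕ) : PadicAlgCl p) = algebraMap ℚ_[p] (PadicAlgCl p) ((p : ℚ_[p]) ^ a) := by
    push_cast
    rfl
  have h2 := PadicAlgCl.norm_extends p ((p : ℚ_[p]) ^ a)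
  rw [norm_pow, Padic.norm_p] at h2
  rw [h1]
  exact h2

theorem norm_q_pos (a : ℕ) : 0 < ‖((p ^ a : ℕ) : PadicAlgCl p)‖ := by
  rw [norm_q]
  have : (0 : ℝ) < p := by exact_mod_cast (Fact.out : p.Prime).pos
  positivity

theorem norm_q_lt {a : ℕ} (ha : 0 < a) : ‖((p ^ a : ℕ) : PadicAlgCl p)‖ < 1 := by
  rw [norm_q]
  have h1 : (1 : ℝ) < p := by exact_mod_cast (Fact.out : p.Prime).one_lt
  exact pow_lt_one₀ (by positivity) (inv_lt_one_of_one_lt₀ h1) ha.ne'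

end Padic

variable {ι : Type} [Fintype ι] {K : ι → Type} [∀ i, Field (K i)] [∀ i, NumberField (K i)]
  {π : ∀ i, K i}

theorem emb_mk_inj (i : ι) : Function.Injective (fun χ : K i →+* ℂ => (⟨i, χ⟩ : Emb K)) := by
  intro a b h
  exact eq_of_heq (Sigma.mk.inj h).2

theorem emb_sq_ne {p a : ℕ} [Fact p.Prime] (ha : 0 < a)
    (hslope : ∀ i, ∀ ψ : K i →+* PadicAlgCl p, ∃ b c : ℕ, Odd b ∧
      ‖ψ (π i)‖ ^ b = ‖((p ^ a : ℕ) : PadicAlgCl p)‖ ^ c) (x : Emb K) :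
    x.2 (π x.1) ^ 2 ≠ ((p ^ a : ℕ) : ℂ) := by
  intro h
  obtain ⟨i, χ⟩ := x
  have h1 : π i ^ 2 = ((p ^ a : ℕ) : K i) := by
    apply χ.injective
    rw [map_pow, map_natCast]
    exact h
  have hcard : 0 < Fintype.card (K i →+* PadicAlgCl p) := by
    rw [NumberField.Embeddings.card]
    exact finrank_pos
  obtain ⟨ψ⟩ := Fintype.card_pos_iff.mp hcard
  obtain ⟨b, c, hb, hbc⟩ := hslope i ψ
  have h2 : ‖ψ (π i)‖ ^ 2 = ‖((p ^ a : ℕ) : PadicAlgCl p)‖ := by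
    rw [← norm_pow, ← map_pow, h1, map_natCast]
  have h3 : ‖((p ^ a : ℕ) : PadicAlgCl p)‖ ^ b = ‖((p ^ a : ℕ) : PadicAlgCl p)‖ ^ (2 * c) := by
    calc ‖((p ^ a : ℕ) : PadicAlgCl p)‖ ^ b = (‖ψ (π i)‖ ^ 2) ^ b := by rw [h2]
      _ = (‖ψ (π i)‖ ^ b) ^ 2 := by rw [← pow_mul, ← pow_mul, mul_comm]
      _ = ‖((p ^ a : ℕ) : PadicAlgCl p)‖ ^ (2 * c) := by rw [hbc, ← pow_mul, mul_comm]
  have h4 := pow_right_injective₀ (norm_q_pos p a) (norm_q_lt p ha).ne h3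
  obtain ⟨k, hk⟩ := hb
  have h5 : b = 2 * c := h4
  omega

/-- The weights. -/
theorem exists_weight {p a : ℕ} [Fact p.Prime] (ip : AA →+* PadicAlgCl p)
    (hslope : ∀ i, ∀ ψ : K i →+* PadicAlgCl p, ∃ b c : ℕ, Odd b ∧
      ‖ψ (π i)‖ ^ b = ‖((p ^ a : ℕ) : PadicAlgCl p)‖ ^ c) :
    ∃ (N : ℕ) (w : Emb K → ℤ), (∀ x, Odd (w x)) ∧ ∀ x : Emb K,
      ‖ip (lft x.2 (π x.1))‖ ^ (2 * N) =
        ‖((p ^ a : ℕ) : PadicAlgCl p)‖ ^ ((N : ℤ) + w x) := by
  classical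
  have h1 : ∀ x : Emb K, ∃ b c : ℕ, Odd b ∧
      ‖ip (lft x.2 (π x.1))‖ ^ b = ‖((p ^ a : ℕ) : PadicAlgCl p)‖ ^ c :=
    fun x => hslope x.1 (ip.comp (lft x.2))
  choose b c hb hbc using h1
  let B : Emb K → ℕ := fun x => ∏ y ∈ univ.erase x, b y
  have hN : ∀ x, ∏ y, b y = b x * B x := fun x => (mul_prod_erase univ b (mem_univ x)).symm
  refine ⟨∏ y, b y, fun x => (2 * c x - b x) * B x, fun x => ?_, fun x => ?_⟩
  · have h2 : Odd (B x) := Finset.prod_induction b Odd (fun _ _ h h' => h.mul h') odd_one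
      fun y _ => hb y
    have h3 : Odd ((2 * c x - b x : ℤ)) := by
      obtain ⟨k, hk⟩ := hb x
      refine ⟨c x - k - 1, ?_⟩
      rw [hk]
      push_cast
      ring
    exact h3.mul (by exact_mod_cast h2)
  · rw [hN x]
    have h2 : 2 * (b x * B x) = b x * (2 * B x) := by ring
    rw [h2, pow_mul, hbc x, ← pow_mul, ← zpow_natCast]
    congr 1
    push_cast
    ring

theorem hpow_of_deg {K : ι → Type} [∀ i, Field (K i)] [∀ i, NumberField (K i)]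
    (hdeg : ∀ i, ∃ n : ℕ, finrank ℚ (K i) = 2 ^ n) (x : Emb K) :
    ∃ n : ℕ, {y : Emb K | y.1 = x.1}.ncard = 2 ^ n := by
  obtain ⟨n, hn⟩ := hdeg x.1
  refine ⟨n, ?_⟩
  have h1 : {y : Emb K | y.1 = x.1} = Set.range fun χ : K x.1 →+* ℂ => (⟨x.1, χ⟩ : Emb K) := by
    ext ⟨i, χ⟩
    constructor
    · intro h
      have h' : i = x.1 := h
      subst h'
      exact ⟨χ, rfl⟩
    · rintro ⟨χ', h⟩
      exact (congrArg Sigma.fst h).symm
  rw [h1, Set.ncard_range_of_injective (emb_mk_inj x.1), ← hn, Nat.card_eq_fintype_card]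
  exact NumberField.Embeddings.card (K x.1) ℂ

theorem htr_of_conj (x y : Emb K) (h : x.1 = y.1) : ∃ g ∈ egal K, g x = y := by
  obtain ⟨i, χ⟩ := x
  obtain ⟨i', ψ⟩ := y
  have h' : i = i' := h
  subst h'
  obtain ⟨σ, hσ⟩ := exists_comp_eq χ ψ
  refine ⟨eperm σ, ⟨σ, rfl⟩, ?_⟩
  rw [eperm_apply, hσ]

/-- **Theorem**: independent discriminants. -/
theorem tate_of_discr {p a : ℕ} [Fact p.Prime] (ha : 0 < a)
    (hweil : ∀ i, ∀ χ : K i →+* ℂ, ‖χ (π i)‖ ^ 2 = (p ^ a : ℕ))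
    (hgen : ∀ i, Algebra.adjoin ℚ {π i} = ⊤)
    (hslope : ∀ i, ∀ ψ : K i →+* PadicAlgCl p, ∃ b c : ℕ, Odd b ∧
      ‖ψ (π i)‖ ^ b = ‖((p ^ a : ℕ) : PadicAlgCl p)‖ ^ c)
    (hdeg : ∀ i, ∃ n : ℕ, finrank ℚ (K i) = 2 ^ n)
    (hdisc : ∀ S : Finset ι, S.Nonempty → ¬ IsSquare (∏ i ∈ S, NumberField.discr (K i)))
    {𝕂 H : Type*} [Field 𝕂] [CharZero 𝕂] [AddCommGroup H] [Module 𝕂 H] {F : Module.End 𝕂 H}
    (hF : ⨆ μ, F.eigenspace μ = ⊤)
    (heig : ∀ μ, F.HasEigenvalue μ → ∃ i, ∃ χ : K i →+* 𝕂, χ (π i) = μ) {n : ℕ} (hn : n ≠ 0)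
    (j : ℕ) : tateClasses F (p ^ a) n j = tateClasses F (p ^ a) 1 1 ^ j := by
  classical
  have hp : p.Prime := Fact.out
  have hq : p ^ a ≠ 0 := pow_ne_zero _ hp.ne_zero
  obtain ⟨ip⟩ := exists_embedding (PadicAlgCl p)
  obtain ⟨N, w, hwodd, hw⟩ := exists_weight (π := π) ip hslope
  refine tate_eq hF (by exact_mod_cast hq) hn j fun S hS hcard hprod => ?_
  refine exists_pairing hq hweil (emb_sq_ne ha hslope) ?_ hn S (fun μ hμ => heig μ (hS μ hμ))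
    hcard hprod
  intro j n hn S hcard hprod
  refine count_eq hq hweil hgen ip (norm_q_pos p a) (norm_q_lt p ha) w hw ?_ hn S hcard hprod
  intro hwinv c hc hrel
  have hcomm := eperm_comm (K := K) hq hweil hgen
  refine odd_weight_criterion (egal K) (fun x => x.1) ?_ htr_of_conj (hpow_of_deg hdeg) einv
    einv_einv hcomm w hwodd hwinv ?_ c hc hrel
  · rintro _ ⟨σ, rfl⟩ x
    rfl
  · intro S hS
    by_contra hcon
    push Not at hcon
    let T : Finset ι := univ.filter fun i => i ∈ S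
    have hT : T.Nonempty := by
      obtain ⟨x, hx⟩ := hS
      exact ⟨x.1, mem_filter.mpr ⟨mem_univ _, hx⟩⟩
    let Φ : ∀ i, Finset (K i →+* ℂ) := fun i => univ.filter fun χ => 0 < w ⟨i, χ⟩
    have hΦm : ∀ i χ, χ ∈ Φ i ↔ 0 < w ⟨i, χ⟩ := fun i χ => by
      rw [mem_filter]
      exact and_iff_right (mem_univ χ)
    have hwne : ∀ x, w x ≠ 0 := by
      intro x h0
      have := hwodd x
      rw [h0] at this
      exact absurd this (by decide)
    have hneg : ∀ x, ¬ 0 < w x ↔ w x < 0 := by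
      intro x
      have := hwne x
      omega
    have hcjinv : ∀ i (χ : K i →+* ℂ), (starRingEnd ℂ).comp ((starRingEnd ℂ).comp χ) = χ := by
      intro i χ
      ext a
      simp
    have hfix : ∀ σ : ℂ →+* ℂ, σ (∏ i ∈ T, dsqrt (K i)) = ∏ i ∈ T, dsqrt (K i) := by
      intro σ
      let G : ∀ i, Finset (K i →+* ℂ) := fun i => (Φ i).filter fun χ => σ.comp χ ∉ Φ i
      have h1 : ∀ i ∈ T, σ (dsqrt (K i)) = (-1) ^ (G i).card * dsqrt (K i) := by
        intro i _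
        refine map_dsqrt' (K i) (inv := fun χ => (starRingEnd ℂ).comp χ) (hcjinv i)
          (Φ := Φ i) ?_ σ ?_ ?_
        · intro χ
          rw [hΦm, hΦm]
          have h2 := hwinv ⟨i, χ⟩
          have h3 := hwne ⟨i, χ⟩
          change 0 < w (einv ⟨i, χ⟩) ↔ _
          omega
        · intro χ
          have h2 := hcomm (eperm σ) ⟨σ, rfl⟩ ⟨i, χ⟩
          have h3 : (⟨i, σ.comp ((starRingEnd ℂ).comp χ)⟩ : Emb K) =
            ⟨i, (starRingEnd ℂ).comp (σ.comp χ)⟩ := h2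
          exact emb_mk_inj i h3
        · intro χ
          rw [mem_filter]
      have h2 := hcon (eperm σ) ⟨σ, rfl⟩ (T.sigma G) (by
        rintro ⟨i, χ⟩
        rw [mem_sigma, mem_filter, mem_filter, hΦm, hΦm, hneg]
        constructor
        · rintro ⟨⟨-, h3⟩, h4, h5⟩
          exact ⟨h4, h3, h5⟩
        · rintro ⟨h4, h3, h5⟩
          exact ⟨⟨mem_univ _, h3⟩, h4, h5⟩)
      rw [Nat.not_odd_iff_even, card_sigma] at h2
      rw [_root_.map_prod, prod_congr rfl h1, prod_mul_distrib,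
        prod_pow_eq_pow_sum, h2.neg_one_pow, one_mul]
    have hsq : (∏ i ∈ T, dsqrt (K i)) ^ 2 = ((∏ i ∈ T, NumberField.discr (K i) : ℤ) : ℂ) := by
      rw [← prod_pow]
      push_cast
      exact prod_congr rfl fun i _ => dsqrt_sq (K i)
    have hint : IsIntegral ℚ (∏ i ∈ T, dsqrt (K i)) := by
      refine IsIntegral.of_pow (n := 2) (by norm_num) ?_
      rw [hsq]
      exact isIntegral_algebraMap (R := ℚ) (A := ℂ)
        (x := ((∏ i ∈ T, NumberField.discr (K i) : ℤ) : ℚ))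
    obtain ⟨r, hr⟩ := rational_of_fixed hint hfix
    apply hdisc T hT
    have h1 : ((∏ i ∈ T, NumberField.discr (K i) : ℤ) : ℚ) = r * r := by
      have h2 : (((∏ i ∈ T, NumberField.discr (K i) : ℤ) : ℚ) : ℂ) = ((r * r : ℚ) : ℂ) := by
        rw [Rat.cast_intCast, ← hsq, ← hr]
        push_cast
        ring
      exact_mod_cast h2
    exact Rat.isSquare_intCast_iff.mp ⟨r, h1⟩

end Pool.Agent.FrobTate
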