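import Pool.Agent.FrobTate.Block

/-!
# The dominant slope theorem: main statement
-/

namespace Pool.Agent.FrobTate

open Finset Module Pool.Agent.CMParity

open Classical in
/-- **Dominant slope theorem.** -/
theorem tate_of_dominant {p a : ℕ} [Fact p.Prime] (ha : 0 < a) {K : Type} [Field K]
    [NumberField K] {π : K} (hgen : Algebra.adjoin ℚ {π} = ⊤)
    (hweil : ∀ χ : K →+* ℂ, ‖χ π‖ ^ 2 = (p ^ a : ℕ)) {N : ℕ}
    (w : (K →+* PadicAlgCl p) → ℤ)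
    (hslope : ∀ ψ : K →+* PadicAlgCl p, ‖ψ π‖ ^ (2 * N) =
      ‖((p ^ a : ℕ) : PadicAlgCl p)‖ ^ ((N : ℤ) + w ψ))
    (ψ₁ : K →+* PadicAlgCl p) (hpos : 0 < w ψ₁)
    (hdom : ∑ ψ ∈ univ.filter (fun ψ => 0 < w ψ), w ψ ≤ 2 * w ψ₁)
    (hsub : ∑ ψ ∈ univ.filter (fun ψ => 0 < w ψ), w ψ = 2 * w ψ₁ →
      ∀ L : IntermediateField ℚ K, L ≠ ⊤ → ∀ x ∈ L, ∀ χ : K →+* ℂ,
        (starRingEnd ℂ) (χ x) = χ x)
    {𝕂 H : Type*} [Field 𝕂] [CharZero 𝕂] [AddCommGroup H] [Module 𝕂 H] {F : Module.End 𝕂 H}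
    (hF : ⨆ μ, F.eigenspace μ = ⊤)
    (heig : ∀ μ, F.HasEigenvalue μ → ∃ χ : K →+* 𝕂, χ π = μ) {n : ℕ} (hn : n ≠ 0)
    (j : ℕ) : tateClasses F (p ^ a) n j = tateClasses F (p ^ a) 1 1 ^ j := by
  have hp : p.Prime := Fact.out
  have hq : p ^ a ≠ 0 := pow_ne_zero _ hp.ne_zero
  obtain ⟨ip⟩ := exists_embedding (PadicAlgCl p)
  have hne : π ^ 2 ≠ (p ^ a : ℕ) := by
    intro h
    have h1 : ‖ψ₁ π‖ ^ 2 = ‖((p ^ a : ℕ) : PadicAlgCl p)‖ := by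
      rw [← norm_pow, ← map_pow, h, map_natCast]
    have h2 := hslope ψ₁
    rw [pow_mul, h1, ← zpow_natCast] at h2
    have h3 := zpow_right_injective₀ (norm_q_pos p a) (norm_q_lt p ha).ne h2
    linarith
  let K' : Unit → Type := fun _ => K
  let : ∀ i, Field (K' i) := fun _ => inferInstanceAs (Field K)
  have : ∀ i, NumberField (K' i) := fun _ => inferInstanceAs (NumberField K)
  let π' : ∀ i, K' i := fun _ => π
  let toΩ : Emb K' → (K →+* PadicAlgCl p) := fun x => ip.comp (lft x.2)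
  have hbij : Function.Bijective (fun χ : K →+* ℂ => ip.comp (lft χ)) := comp_lft_bijective ip
  have hbij' : Function.Bijective toΩ := by
    constructor
    · rintro ⟨⟨⟩, χ⟩ ⟨⟨⟩, χ'⟩ h
      have h1 : χ = χ' := hbij.1 h
      rw [h1]
    · intro ψ
      obtain ⟨χ, hχ⟩ := hbij.2 ψ
      exact ⟨⟨(), χ⟩, hχ⟩
  have hweil' : ∀ i, ∀ χ : K' i →+* ℂ, ‖χ (π' i)‖ ^ 2 = (p ^ a : ℕ) := fun _ χ => hweil χ
  have hgen' : ∀ i, Algebra.adjoin ℚ {π' i} = ⊤ := fun _ => hgen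
  have hfix : ∀ x : Emb K', x.2 (π' x.1) ^ 2 ≠ ((p ^ a : ℕ) : ℂ) := by
    rintro ⟨i, χ⟩ h
    apply hne
    apply (show Function.Injective (χ : K →+* ℂ) from χ.injective)
    rw [map_pow, map_natCast]
    exact h
  refine tate_eq hF (by exact_mod_cast hq) hn j fun S hS hcard hprod => ?_
  refine exists_pairing (K := K') (π := π') hq hweil' hfix ?_ hn S
    (fun μ hμ => ⟨(), heig μ (hS μ hμ)⟩) hcard hprod
  intro j n hn S hcard hprod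
  refine count_eq hq hweil' hgen' ip (norm_q_pos p a) (norm_q_lt p ha) (fun x => w (toΩ x))
    (fun x => hslope (toΩ x)) ?_ hn S hcard hprod
  intro hwinv c hc hrel
  have hcomm := eperm_comm (K := K') hq hweil' hgen'
  by_contra hc0
  obtain ⟨⟨⟨⟩, χ₁⟩, hx₁⟩ := hbij'.2 ψ₁
  have hsum : ∑ x ∈ univ.filter (fun x : Emb K' => 0 < w (toΩ x)), w (toΩ x) =
      ∑ ψ ∈ univ.filter (fun ψ => 0 < w ψ), w ψ := by
    refine sum_bij (fun x _ => toΩ x) ?_ ?_ ?_ ?_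
    · intro x hx
      exact mem_filter.mpr ⟨mem_univ _, (mem_filter.mp hx).2⟩
    · intro x _ y _ h
      exact hbij'.1 h
    · intro ψ hψ
      obtain ⟨x, rfl⟩ := hbij'.2 ψ
      exact ⟨x, mem_filter.mpr ⟨mem_univ _, (mem_filter.mp hψ).2⟩, rfl⟩
    · intro x _
      rfl
  obtain ⟨h1, h2, y, hy, hyne⟩ := block_main (H := egal K') (inv := einv)
    (w := fun x => w (toΩ x)) (x₁ := (⟨(), χ₁⟩ : Emb K'))
    (fun x y => htr_of_conj x y rfl) einv_einv hcomm hwinv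
    (by rw [hx₁]; exact hpos)
    (by rw [hx₁]; exact hsum.trans_le hdom) ⟨hc, hrel⟩ hc0
  have h1' : ∑ ψ ∈ univ.filter (fun ψ => 0 < w ψ), w ψ = 2 * w ψ₁ := by
    rw [← hsum, ← hx₁]
    exact h1
  let B : Set (K →+* ℂ) := {χ | (⟨(), χ⟩ : Emb K') ∈ block (egal K') einv
    (fun x => w (toΩ x)) ⟨(), χ₁⟩}
  have hB₁ : χ₁ ∈ B := fun c _ _ => rfl
  have hblock : ∀ σ : ℂ →+* ℂ, σ.comp χ₁ ∈ B → ∀ χ ∈ B, σ.comp χ ∈ B := by
    intro σ hσ χ hχ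
    exact block_stable (y := (⟨(), χ⟩ : Emb K')) hcomm ⟨eperm σ, ⟨σ, rfl⟩⟩ hσ hχ
  have hL : agree B χ₁ ≠ ⊤ := by
    intro htop
    apply hyne
    obtain ⟨⟨⟩, χ⟩ := y
    have h3 : χ = χ₁ := by
      refine RingHom.ext fun a => ?_
      have h4 : a ∈ agree B χ₁ := by
        rw [htop]
        exact IntermediateField.mem_top
      exact h4 χ hy
    rw [h3]
  have h3 := hsub h1' (agree B χ₁) hL
  have h4 : (starRingEnd ℂ).comp χ₁ ∈ B :=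
    agree_mem hgen hB₁ hblock fun a ha => h3 a ha χ₁
  exact h2 h4

end Pool.Agent.FrobTate
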