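import Pool.Agent.FrobTate.Discr

/-!
# The dominant slope theorem
-/

namespace Pool.Agent.FrobTate

open Finset Module Pool.Agent.CMParity

section Perm

variable {X : Type*} [Fintype X] [DecidableEq X] {H : Subgroup (Equiv.Perm X)} {inv : X → X}
  {w : X → ℤ}

/-- Summing over the elements of positive weight. -/
theorem relL_pos (hinv : ∀ x, inv (inv x) = x) (hw : ∀ x, w (inv x) = - w x) {c : X → ℤ}
    (hc : c ∈ relL H inv w) : ∑ x ∈ univ.filter (fun x => 0 < w x), c x * w x = 0 := by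
  obtain ⟨hodd, hrel⟩ := hc
  have h1 := hrel 1 H.one_mem
  have h2 : ∑ x, c x * w ((1 : Equiv.Perm X) x) =
      ∑ x ∈ univ.filter (fun x => 0 < w x), c x * w x +
        ∑ x ∈ univ.filter (fun x => w x < 0), c x * w x := by
    have h3 : ∀ x, c x * w ((1 : Equiv.Perm X) x) =
        (if 0 < w x then c x * w x else 0) + (if w x < 0 then c x * w x else 0) := by
      intro x
      rw [Equiv.Perm.one_apply]
      rcases lt_trichotomy (w x) 0 with h | h | h
      · rw [if_neg (not_lt.mpr h.le), if_pos h, zero_add]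
      · rw [h]
        simp
      · rw [if_pos h, if_neg (not_lt.mpr h.le), add_zero]
    simp_rw [h3]
    rw [sum_add_distrib, ← sum_filter, ← sum_filter]
  have h4 : ∑ x ∈ univ.filter (fun x => w x < 0), c x * w x =
      ∑ x ∈ univ.filter (fun x => 0 < w x), c x * w x := by
    refine sum_bij' (fun x _ => inv x) (fun x _ => inv x) ?_ ?_ ?_ ?_ ?_
    · intro x hx
      rw [mem_filter] at hx ⊢
      refine ⟨mem_univ _, ?_⟩
      rw [hw]
      linarith [hx.2]
    · intro x hx
      rw [mem_filter] at hx ⊢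
      refine ⟨mem_univ _, ?_⟩
      rw [hw]
      linarith [hx.2]
    · intro x _
      exact hinv x
    · intro x _
      exact hinv x
    · intro x _
      rw [hodd, hw]
      ring
  rw [h2, h4] at h1
  linarith

/-- The maximum principle. -/
theorem max_principle (hinv : ∀ x, inv (inv x) = x) (hw : ∀ x, w (inv x) = - w x) {x₁ : X}
    (hpos : 0 < w x₁) (hdom : ∑ x ∈ univ.filter (fun x => 0 < w x), w x ≤ 2 * w x₁)
    {c : X → ℤ} (hc : c ∈ relL H inv w) {M : ℤ} (hM : 0 < M) (hM₁ : c x₁ = M)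
    (hle : ∀ x, |c x| ≤ M) :
    ∑ x ∈ univ.filter (fun x => 0 < w x), w x = 2 * w x₁ ∧
      ∀ x, 0 < w x → x ≠ x₁ → c x = - M := by
  have h1 := relL_pos hinv hw hc
  have hmem : x₁ ∈ univ.filter (fun x => 0 < w x) := mem_filter.mpr ⟨mem_univ _, hpos⟩
  rw [← add_sum_erase _ _ hmem, hM₁] at h1
  have h2 : ∑ x ∈ univ.filter (fun x => 0 < w x), w x = w x₁ +
      ∑ x ∈ (univ.filter (fun x => 0 < w x)).erase x₁, w x := (add_sum_erase _ _ hmem).symm
  have h3 : ∑ x ∈ (univ.filter (fun x => 0 < w x)).erase x₁, (c x + M) * w x =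
      ∑ x ∈ (univ.filter (fun x => 0 < w x)).erase x₁, c x * w x +
        M * ∑ x ∈ (univ.filter (fun x => 0 < w x)).erase x₁, w x := by
    rw [mul_sum, ← sum_add_distrib]
    exact sum_congr rfl fun x _ => by ring
  have h4 : ∀ x ∈ (univ.filter (fun x => 0 < w x)).erase x₁, 0 ≤ (c x + M) * w x := by
    intro x hx
    rw [mem_erase, mem_filter] at hx
    have h5 := (abs_le.mp (hle x)).1
    exact mul_nonneg (by linarith) hx.2.2.le
  have h5 : 0 ≤ ∑ x ∈ (univ.filter (fun x => 0 < w x)).erase x₁, (c x + M) * w x :=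
    sum_nonneg h4
  have h6 : ∑ x ∈ (univ.filter (fun x => 0 < w x)).erase x₁, w x ≤ w x₁ := by linarith
  have h7 : ∑ x ∈ (univ.filter (fun x => 0 < w x)).erase x₁, (c x + M) * w x ≤ 0 := by
    rw [h3]
    nlinarith
  have h8 : ∑ x ∈ (univ.filter (fun x => 0 < w x)).erase x₁, (c x + M) * w x = 0 :=
    le_antisymm h7 h5
  have h9 := (sum_eq_zero_iff_of_nonneg h4).mp h8
  constructor
  · rw [h8] at h3
    have h10 : M * (∑ x ∈ (univ.filter (fun x => 0 < w x)).erase x₁, w x - w x₁) = 0 := by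
      linarith
    have h11 := (mul_eq_zero.mp h10).resolve_left hM.ne'
    linarith
  · intro x hx hne
    have h10 := h9 x (mem_erase.mpr ⟨hne, mem_filter.mpr ⟨mem_univ _, hx⟩⟩)
    have h11 := (mul_eq_zero.mp h10).resolve_right hx.ne'
    linarith

variable (H inv w) in
/-- The block of `x₁`. -/
def block (x₁ : X) : Set X :=
  {y | ∀ c ∈ relL H inv w, (∀ x, |c x| ≤ c x₁) → c y = c x₁}

theorem block_stable (hcomm : ∀ π ∈ H, ∀ x, π (inv x) = inv (π x)) {x₁ : X} (g : H)
    (hg : g.1 x₁ ∈ block H inv w x₁) {y : X} (hy : y ∈ block H inv w x₁) :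
    g.1 y ∈ block H inv w x₁ := by
  intro c hc hle
  have h1 := hg c hc hle
  have h2 := hy (fun x => c (g • x)) (relL_stab hcomm g c hc) (by
    intro x
    change |c (g.1 x)| ≤ c (g.1 x₁)
    rw [h1]
    exact hle _)
  have h3 : c (g.1 y) = c (g.1 x₁) := h2
  rw [h3, h1]

theorem block_main (htr : ∀ x y, ∃ π ∈ H, π x = y) (hinv : ∀ x, inv (inv x) = x)
    (hcomm : ∀ π ∈ H, ∀ x, π (inv x) = inv (π x)) (hw : ∀ x, w (inv x) = - w x) {x₁ : X}
    (hpos : 0 < w x₁) (hdom : ∑ x ∈ univ.filter (fun x => 0 < w x), w x ≤ 2 * w x₁)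
    {c : X → ℤ} (hc : c ∈ relL H inv w) (hc0 : c ≠ 0) :
    ∑ x ∈ univ.filter (fun x => 0 < w x), w x = 2 * w x₁ ∧
      inv x₁ ∉ block H inv w x₁ ∧ ∃ y ∈ block H inv w x₁, y ≠ x₁ := by
  -- move the maximum to `x₁`
  have h1 : ∃ c' ∈ relL H inv w, 0 < c' x₁ ∧ ∀ x, |c' x| ≤ c' x₁ := by
    obtain ⟨y, -, hy⟩ := exists_max_image univ (fun x => |c x|) ⟨x₁, mem_univ _⟩
    have hy0 : 0 < |c y| := by
      by_contra hcon
      apply hc0
      funext x
      have h2 := hy x (mem_univ x)
      have h3 : |c x| ≤ 0 := h2.trans (not_lt.mp hcon)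
      exact abs_eq_zero.mp (le_antisymm h3 (abs_nonneg _))
    obtain ⟨g, hg, hgy⟩ := htr x₁ y
    have h2 := relL_stab hcomm ⟨g, hg⟩ c hc
    rcases abs_choice (c y) with h3 | h3
    · refine ⟨_, h2, ?_, ?_⟩
      · change 0 < c (g x₁)
        rw [hgy, ← h3]
        exact hy0
      · intro x
        change |c (g x)| ≤ c (g x₁)
        rw [hgy, ← h3]
        exact hy _ (mem_univ _)
    · refine ⟨-_, (relL H inv w).neg_mem h2, ?_, ?_⟩
      · change 0 < - c (g x₁)
        rw [hgy, ← h3]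
        exact hy0
      · intro x
        change |- c (g x)| ≤ - c (g x₁)
        rw [hgy, ← h3, abs_neg]
        exact hy _ (mem_univ _)
  obtain ⟨c', hc', hpos', hle'⟩ := h1
  obtain ⟨h2, -⟩ := max_principle hinv hw hpos hdom hc' hpos' rfl hle'
  refine ⟨h2, ?_, ?_⟩
  · intro h3
    have h4 := h3 c' hc' hle'
    rw [hc'.1] at h4
    linarith
  · have h3 : ∃ x, 0 < w x ∧ x ≠ x₁ := by
      by_contra hcon
      push Not at hcon
      have h4 : univ.filter (fun x => 0 < w x) = {x₁} := by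
        ext x
        rw [mem_filter, mem_singleton]
        constructor
        · rintro ⟨-, hx⟩
          exact hcon x hx
        · rintro rfl
          exact ⟨mem_univ _, hpos⟩
      rw [h4, sum_singleton] at h2
      linarith
    obtain ⟨x, hx, hxne⟩ := h3
    refine ⟨inv x, ?_, ?_⟩
    · intro c'' hc'' hle''
      by_cases h0 : 0 < c'' x₁
      · have h5 := (max_principle hinv hw hpos hdom hc'' h0 rfl hle'').2 x hx hxne
        rw [hc''.1, h5, neg_neg]
      · have h5 : ∀ y, c'' y = 0 := by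
          intro y
          have h6 := (hle'' y).trans (not_lt.mp h0)
          exact abs_eq_zero.mp (le_antisymm h6 (abs_nonneg _))
        rw [h5, h5]
    · intro h5
      have h6 := hw x
      rw [h5] at h6
      linarith

end Perm

end Pool.Agent.FrobTate
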