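import Pool.Agent.FrobTate.Defs
import Pool.Agent.GHC.Algebra

/-!
# From relations between eigenvalues to Tate classes
-/

namespace Pool.Agent.FrobTate

open Module ExteriorAlgebra

variable {𝕂 H : Type*} [Field 𝕂] [AddCommGroup H] [Module 𝕂 H] {F : Module.End 𝕂 H}

/-- The wedge product of the vectors in a list of pairs (eigenvalue, eigenvector). -/
noncomputable def mon (l : List (𝕂 × H)) : ExteriorAlgebra 𝕂 H :=
  (l.map fun a => ι 𝕂 a.2).prod

/-- A list of pairs (eigenvalue, eigenvector). -/
def Good (F : Module.End 𝕂 H) (l : List (𝕂 × H)) : Prop := ∀ a ∈ l, F.HasEigenvector a.1 a.2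

theorem map_mon {l : List (𝕂 × H)} (hl : Good F l) :
    ExteriorAlgebra.map F (mon l) = (l.map Prod.fst).prod • mon l := by
  induction l with
  | nil => simp [mon]
  | cons a l ih =>
    have h1 := ih fun b hb => hl b (List.mem_cons_of_mem _ hb)
    have h2 : F a.2 = a.1 • a.2 := (hl a List.mem_cons_self).apply_eq_smul
    have h3 : mon (a :: l) = ι 𝕂 a.2 * mon l := by simp [mon]
    rw [h3, map_mul, h1, ExteriorAlgebra.map_apply_ι, h2, List.map_cons, List.prod_cons,
      _root_.map_smul, smul_mul_smul_comm]

theorem frob_mon {l : List (𝕂 × H)} (hl : Good F l) (n : ℕ) :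
    frob F n (mon l) = (l.map Prod.fst).prod ^ n • mon l := by
  induction n with
  | zero => simp [frob]
  | succ n ih =>
    unfold frob at ih ⊢
    rw [pow_succ', Module.End.mul_apply, ih, _root_.map_smul]
    change _ • ExteriorAlgebra.map F (mon l) = _
    rw [map_mon hl, smul_smul, pow_succ]

theorem mon_mem {l : List (𝕂 × H)} : mon l ∈ ⋀[𝕂]^l.length H := by
  induction l with
  | nil => simp [mon]
  | cons a l ih =>
    have h3 : mon (a :: l) = ι 𝕂 a.2 * mon l := by simp [mon]
    rw [h3, List.length_cons]
    change _ ∈ LinearMap.range (ι 𝕂) ^ (l.length + 1)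
    rw [pow_succ']
    exact Submodule.mul_mem_mul ⟨a.2, rfl⟩ ih

theorem le_span_mon (hF : ⨆ μ, F.eigenspace μ = ⊤) (k : ℕ) : ⋀[𝕂]^k H ≤
    Submodule.span 𝕂 {y | ∃ l : List (𝕂 × H), Good F l ∧ l.length = k ∧ y = mon l} := by
  induction k with
  | zero =>
    change LinearMap.range (ι 𝕂) ^ 0 ≤ _
    rw [pow_zero, Submodule.one_le]
    exact Submodule.subset_span ⟨[], by simp [Good], rfl, by simp [mon]⟩
  | succ k ih =>
    change LinearMap.range (ι 𝕂) ^ (k + 1) ≤ _
    rw [pow_succ', Submodule.mul_le]
    rintro _ ⟨v, rfl⟩ y hy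
    have hy' := ih hy
    clear hy
    have hv : v ∈ Submodule.span 𝕂 {v : H | ∃ μ, F.HasEigenvector μ v} := by
      have h1 : (⊤ : Submodule 𝕂 H) ≤ Submodule.span 𝕂 {v : H | ∃ μ, F.HasEigenvector μ v} := by
        rw [← hF]
        refine iSup_le fun μ => ?_
        intro v hv
        by_cases h0 : v = 0
        · rw [h0]
          exact Submodule.zero_mem _
        · exact Submodule.subset_span ⟨μ, hv, h0⟩
      exact h1 Submodule.mem_top
    induction hv using Submodule.span_induction with
    | mem v hv =>
      obtain ⟨μ, hμ⟩ := hv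
      induction hy' using Submodule.span_induction with
      | mem y hy =>
        obtain ⟨l, hl, hlk, rfl⟩ := hy
        refine Submodule.subset_span ⟨(μ, v) :: l, ?_, by simp [hlk], by simp [mon]⟩
        intro a ha
        rcases List.mem_cons.mp ha with rfl | ha
        · exact hμ
        · exact hl a ha
      | zero =>
        rw [mul_zero]
        exact Submodule.zero_mem _
      | add y z _ _ h1 h2 =>
        rw [mul_add]
        exact Submodule.add_mem _ h1 h2
      | smul c y _ h1 =>
        rw [mul_smul_comm]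
        exact Submodule.smul_mem _ c h1
    | zero =>
      rw [_root_.map_zero, zero_mul]
      exact Submodule.zero_mem _
    | add v w _ _ h1 h2 =>
      rw [_root_.map_add, add_mul]
      exact Submodule.add_mem _ h1 h2
    | smul c v _ h1 =>
      rw [_root_.map_smul, smul_mul_assoc]
      exact Submodule.smul_mem _ c h1

/-- Eigenvectors in a span of eigenvectors. -/
theorem mem_span_of_eigen {W : Type*} [AddCommGroup W] [Module 𝕂 W] (T : Module.End 𝕂 W)
    {α : Type*} (good : α → Prop) (y : α → W) (ev : α → 𝕂)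
    (hy : ∀ a, good a → T (y a) = ev a • y a) {x : W} {μ : 𝕂} (hx : T x = μ • x)
    (hmem : x ∈ Submodule.span 𝕂 {z | ∃ a, good a ∧ z = y a}) :
    x ∈ Submodule.span 𝕂 {z | ∃ a, good a ∧ ev a = μ ∧ z = y a} := by
  set M : 𝕂 → Submodule 𝕂 W := fun ν => Submodule.span 𝕂 {z | ∃ a, good a ∧ ev a = ν ∧ z = y a}
    with hM
  have h1 : ∀ ν, M ν ≤ T.eigenspace ν := by
    intro ν
    refine Submodule.span_le.mpr ?_
    rintro _ ⟨a, ha, hν, rfl⟩
    rw [SetLike.mem_coe, Module.End.mem_eigenspace_iff, hy a ha, hν]
  have h2 : x ∈ M μ ⊔ ⨆ (ν) (_ : ν ≠ μ), M ν := by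
    refine (?_ : Submodule.span 𝕂 {z | ∃ a, good a ∧ z = y a} ≤ _) hmem
    refine Submodule.span_le.mpr ?_
    rintro _ ⟨a, ha, rfl⟩
    by_cases h : ev a = μ
    · exact Submodule.mem_sup_left (Submodule.subset_span ⟨a, ha, h, rfl⟩)
    · refine Submodule.mem_sup_right ?_
      refine Submodule.mem_iSup_of_mem (ev a) (Submodule.mem_iSup_of_mem h ?_)
      exact Submodule.subset_span ⟨a, ha, rfl, rfl⟩
  obtain ⟨u, hu, v, hv, rfl⟩ := Submodule.mem_sup.mp h2
  have h3 : v ∈ T.eigenspace μ := by
    have h4 : T u = μ • u := Module.End.mem_eigenspace_iff.mp (h1 μ hu)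
    rw [Module.End.mem_eigenspace_iff]
    rw [_root_.map_add, h4, smul_add] at hx
    exact add_left_cancel hx
  have h5 : v ∈ ⨆ (ν) (_ : ν ≠ μ), T.eigenspace ν := by
    refine (?_ : (⨆ (ν) (_ : ν ≠ μ), M ν) ≤ _) hv
    exact iSup_mono fun ν => iSup_mono fun _ => h1 ν
  have h6 := (Module.End.eigenspaces_iSupIndep T μ).le_bot ⟨h3, h5⟩
  rw [(Submodule.mem_bot 𝕂).mp h6, add_zero]
  exact hu

theorem mon_cons (a : 𝕂 × H) (l : List (𝕂 × H)) : mon (a :: l) = ι 𝕂 a.2 * mon l := by
  simp [mon]

theorem mon_perm {l l' : List (𝕂 × H)} (h : l.Perm l') : mon l = mon l' ∨ mon l = - mon l' := by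
  refine GHC.prod_perm _ (fun a b => ?_) h
  exact eq_neg_of_add_eq_zero_left (ExteriorAlgebra.ι_add_mul_swap a.2 b.2)

/-- A monomial whose eigenvalues are matched in pairs with product `Q` lies in a power of the
space of Tate classes of degree two. -/
theorem mon_mem_pow {q : ℕ} (hq : (q : 𝕂) ≠ 0) (m : Multiset 𝕂) (l : List (𝕂 × H))
    (hl : Good F l) (hne : ∀ a ∈ l, a.1 ≠ 0)
    (hm : ((l.map Prod.fst : List 𝕂) : Multiset 𝕂) = m + m.map fun μ => (q : 𝕂) / μ) :
    mon l ∈ tateClasses F q 1 1 ^ m.card := by
  classical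
  induction m using Multiset.induction_on generalizing l with
  | empty =>
    have h1 : l = [] := by
      have h2 := congrArg Multiset.card hm
      simpa using h2
    rw [h1, Multiset.card_zero, pow_zero]
    simp [mon]
  | cons ψ m ih =>
    rw [Multiset.map_cons, Multiset.cons_add, Multiset.add_cons] at hm
    have h1 : ψ ∈ ((l.map Prod.fst : List 𝕂) : Multiset 𝕂) := by
      rw [hm]
      exact Multiset.mem_cons_self _ _
    rw [Multiset.mem_coe, List.mem_map] at h1
    obtain ⟨a, ha, haψ⟩ := h1
    have hp1 := List.perm_cons_erase ha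
    have h2 : ((l.map Prod.fst : List 𝕂) : Multiset 𝕂) =
        ψ ::ₘ (((l.erase a).map Prod.fst : List 𝕂) : Multiset 𝕂) := by
      rw [Multiset.cons_coe, Multiset.coe_eq_coe]
      have := hp1.map Prod.fst
      rwa [List.map_cons, haψ] at this
    rw [h2] at hm
    have hm' := (Multiset.cons_inj_right ψ).mp hm
    have h3 : (q : 𝕂) / ψ ∈ (((l.erase a).map Prod.fst : List 𝕂) : Multiset 𝕂) := by
      rw [hm']
      exact Multiset.mem_cons_self _ _
    rw [Multiset.mem_coe, List.mem_map] at h3
    obtain ⟨b, hb, hbψ⟩ := h3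
    have hp2 := List.perm_cons_erase hb
    have h4 : (((l.erase a).map Prod.fst : List 𝕂) : Multiset 𝕂) =
        ((q : 𝕂) / ψ) ::ₘ ((((l.erase a).erase b).map Prod.fst : List 𝕂) : Multiset 𝕂) := by
      rw [Multiset.cons_coe, Multiset.coe_eq_coe]
      have := hp2.map Prod.fst
      rwa [List.map_cons, hbψ] at this
    rw [h4] at hm'
    have hm'' := (Multiset.cons_inj_right ((q : 𝕂) / ψ)).mp hm'
    have hsub : ∀ c ∈ (l.erase a).erase b, c ∈ l :=
      fun c hc => List.mem_of_mem_erase (List.mem_of_mem_erase hc)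
    have h5 := ih ((l.erase a).erase b) (fun c hc => hl c (hsub c hc))
      (fun c hc => hne c (hsub c hc)) hm''
    have hperm : l.Perm (a :: b :: (l.erase a).erase b) := hp1.trans (hp2.cons a)
    have hbl : b ∈ l := List.mem_of_mem_erase hb
    have h6 : mon (a :: b :: (l.erase a).erase b) ∈ tateClasses F q 1 1 ^ (m.card + 1) := by
      rw [mon_cons, mon_cons, ← mul_assoc, pow_succ']
      refine Submodule.mul_mem_mul ?_ h5
      have h7 : Good F [a, b] := by
        intro c hc
        simp only [List.mem_cons, List.not_mem_nil, or_false] at hc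
        rcases hc with rfl | rfl
        · exact hl _ ha
        · exact hl _ hbl
      have h8 : ι 𝕂 a.2 * ι 𝕂 b.2 = mon [a, b] := by simp [mon]
      rw [h8]
      refine ⟨?_, ?_⟩
      · exact mon_mem (l := [a, b])
      · rw [SetLike.mem_coe, Module.End.mem_eigenspace_iff, frob_mon h7]
        congr 1
        simp only [List.map_cons, List.map_nil, List.prod_cons, List.prod_nil, mul_one, pow_one]
        rw [haψ, hbψ]
        have h9 : ψ ≠ 0 := by
          rw [← haψ]
          exact hne a ha
        field_simp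
    rw [Multiset.card_cons]
    rcases mon_perm hperm with h7 | h7
    · rw [h7]
      exact h6
    · rw [h7]
      exact Submodule.neg_mem _ h6

/-- If the only multiplicative relations between the eigenvalues are the trivial ones, the Tate
classes are the polynomials in the Tate classes of degree two. -/
theorem tate_eq (hF : ⨆ μ, F.eigenspace μ = ⊤) {q : ℕ} (hq : (q : 𝕂) ≠ 0) {n : ℕ} (hn : n ≠ 0)
    (j : ℕ) (hcomb : ∀ S : Multiset 𝕂, (∀ μ ∈ S, F.HasEigenvalue μ) → S.card = 2 * j →
      S.prod ^ n = (q : 𝕂) ^ (n * j) → ∃ m : Multiset 𝕂, S = m + m.map fun μ => (q : 𝕂) / μ) :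
    tateClasses F q n j = tateClasses F q 1 1 ^ j := by
  apply le_antisymm
  · rintro x ⟨hx, hx'⟩
    rw [SetLike.mem_coe, Module.End.mem_eigenspace_iff] at hx'
    have h1 := mem_span_of_eigen (frob F n) (fun l : List (𝕂 × H) => Good F l ∧ l.length = 2 * j)
      mon (fun l => (l.map Prod.fst).prod ^ n) (fun l hl => frob_mon hl.1 n) hx' (by
        have h2 := le_span_mon hF (2 * j) hx
        have h3 : {y : ExteriorAlgebra 𝕂 H | ∃ l : List (𝕂 × H), Good F l ∧ l.length = 2 * j ∧
            y = mon l} ⊆ {z | ∃ a : List (𝕂 × H), (Good F a ∧ a.length = 2 * j) ∧ z = mon a} := by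
          rintro _ ⟨l, h3, h4, rfl⟩
          exact ⟨l, ⟨h3, h4⟩, rfl⟩
        exact Submodule.span_mono h3 h2)
    have h0 : Submodule.span 𝕂 {z | ∃ a : List (𝕂 × H), (Good F a ∧ a.length = 2 * j) ∧
        (a.map Prod.fst).prod ^ n = (((q ^ n) ^ j : ℕ) : 𝕂) ∧ z = mon a} ≤
        tateClasses F q 1 1 ^ j := ?_
    · exact h0 h1
    refine Submodule.span_le.mpr ?_
    rintro _ ⟨l, ⟨hl, hlj⟩, hprod, rfl⟩
    have h3 : ((q ^ n) ^ j : ℕ) = ((q : 𝕂)) ^ (n * j) := by
      push_cast
      rw [pow_mul]
    have h4 : ((l.map Prod.fst : List 𝕂) : Multiset 𝕂).prod ^ n = (q : 𝕂) ^ (n * j) := by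
      rw [Multiset.prod_coe, hprod, h3]
    obtain ⟨m, hm⟩ := hcomb _ (by
      intro μ hμ
      rw [Multiset.mem_coe, List.mem_map] at hμ
      obtain ⟨a, ha, rfl⟩ := hμ
      exact Module.End.hasEigenvalue_of_hasEigenvector (hl a ha)) (by simp [hlj]) h4
    have hcard : m.card = j := by
      have h5 := congrArg Multiset.card hm
      rw [Multiset.card_add, Multiset.card_map, Multiset.coe_card, List.length_map, hlj] at h5
      omega
    have h6 := mon_mem_pow hq m l hl (by
      intro a ha h0
      have h7 : ((l.map Prod.fst : List 𝕂) : Multiset 𝕂).prod = 0 := by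
        rw [Multiset.prod_coe]
        exact List.prod_eq_zero (List.mem_map.mpr ⟨a, ha, h0⟩)
      rw [h7, zero_pow hn] at h4
      exact pow_ne_zero _ hq h4.symm) hm
    rwa [hcard] at h6
  · have key : ∀ i : ℕ, tateClasses F q 1 1 ^ i ≤ tateClasses F q n i := by
      intro i
      have h1 : ∀ (k : ℕ) (x y : ExteriorAlgebra 𝕂 H), frob F k (x * y) =
          frob F k x * frob F k y := by
        intro k
        induction k with
        | zero => intro x y; simp [frob]
        | succ k ih =>
          intro x y
          unfold frob at ih ⊢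
          rw [pow_succ', Module.End.mul_apply, ih, Module.End.mul_apply, Module.End.mul_apply]
          exact map_mul (ExteriorAlgebra.map F) _ _
      induction i with
      | zero =>
        rw [pow_zero, Submodule.one_le]
        refine ⟨?_, ?_⟩
        · rw [SetLike.mem_coe]
          change (1 : ExteriorAlgebra 𝕂 H) ∈ LinearMap.range (ι 𝕂) ^ (2 * 0)
          rw [mul_zero, pow_zero]
          exact Submodule.one_le.mp le_rfl
        · rw [SetLike.mem_coe, Module.End.mem_eigenspace_iff]
          have h2 : ∀ k : ℕ, frob F k 1 = 1 := by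
            intro k
            unfold frob
            induction k with
            | zero => simp
            | succ k ihk =>
              rw [pow_succ', Module.End.mul_apply, ihk]
              exact map_one (ExteriorAlgebra.map F)
          rw [h2, pow_zero, Nat.cast_one, one_smul]
      | succ i ih =>
        rw [pow_succ, Submodule.mul_le]
        intro x hx y hy
        obtain ⟨h2, h3⟩ := ih hx
        obtain ⟨h4, h5⟩ := hy
        rw [SetLike.mem_coe, Module.End.mem_eigenspace_iff] at h3 h5
        refine ⟨?_, ?_⟩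
        · rw [SetLike.mem_coe]
          change x * y ∈ LinearMap.range (ι 𝕂) ^ (2 * (i + 1))
          rw [show 2 * (i + 1) = 2 * i + 2 * 1 by ring, pow_add]
          exact Submodule.mul_mem_mul h2 h4
        · rw [SetLike.mem_coe, Module.End.mem_eigenspace_iff, h1, h3]
          have h6 : frob F n y = ((q : 𝕂) ^ n) • y := by
            have h7 : ∀ k : ℕ, frob F k y = ((q : 𝕂) ^ k) • y := by
              intro k
              induction k with
              | zero => simp [frob]
              | succ k ihk =>
                have h8 : frob F (k + 1) y = frob F 1 (frob F k y) := by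
                  unfold frob
                  rw [pow_succ', Module.End.mul_apply, pow_one]
                rw [h8, ihk, _root_.map_smul, h5, smul_smul]
                congr 1
                push_cast
                ring
            exact h7 n
          rw [h6, smul_mul_smul_comm]
          congr 1
          push_cast
          ring
    exact key j

end Pool.Agent.FrobTate
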