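import Pool.Agent.FrobTate.Discr

/-!
# Tate classes: fields of degree twice a prime power
-/

namespace Pool.Agent.FrobTate

open Finset Module Pool.Agent.CMParity

/-- **Theorem**: fields of degree twice a prime power. -/
theorem tate_of_primePower {p a : ℕ} [Fact p.Prime] (ha : 0 < a) {K : Type} [Field K]
    [NumberField K] {π : K} (hgen : Algebra.adjoin ℚ {π} = ⊤)
    (hweil : ∀ χ : K →+* ℂ, ‖χ π‖ ^ 2 = (p ^ a : ℕ)) (hne : π ^ 2 ≠ (p ^ a : ℕ))
    {ℓ k : ℕ} (hℓ : ℓ.Prime) (hdeg : finrank ℚ K = 2 * ℓ ^ k) {N : ℕ}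
    (w : (K →+* PadicAlgCl p) → ℤ)
    (hslope : ∀ ψ : K →+* PadicAlgCl p, ‖ψ π‖ ^ (2 * N) =
      ‖((p ^ a : ℕ) : PadicAlgCl p)‖ ^ ((N : ℤ) + w ψ))
    (hsign : ∀ T : Finset (K →+* PadicAlgCl p),
      (∀ ψ ψ' : K →+* PadicAlgCl p, ψ π * ψ' π = (p ^ a : ℕ) → (ψ ∈ T ↔ ψ' ∉ T)) →
      ¬ (ℓ : ℤ) ∣ ∑ ψ ∈ T, w ψ)
    {𝕂 H : Type*} [Field 𝕂] [CharZero 𝕂] [AddCommGroup H] [Module 𝕂 H] {F : Module.End 𝕂 H}
    (hF : ⨆ μ, F.eigenspace μ = ⊤)
    (heig : ∀ μ, F.HasEigenvalue μ → ∃ χ : K →+* 𝕂, χ π = μ) {n : ℕ} (hn : n ≠ 0)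
    (j : ℕ) : tateClasses F (p ^ a) n j = tateClasses F (p ^ a) 1 1 ^ j := by
  classical
  have : Fact ℓ.Prime := ⟨hℓ⟩
  have hp : p.Prime := Fact.out
  have hq : p ^ a ≠ 0 := pow_ne_zero _ hp.ne_zero
  have hq' : ((p ^ a : ℕ) : ℂ) ≠ 0 := by exact_mod_cast hq
  obtain ⟨ip⟩ := exists_embedding (PadicAlgCl p)
  let K' : Unit → Type := fun _ => K
  let : ∀ i, Field (K' i) := fun _ => inferInstanceAs (Field K)
  have : ∀ i, NumberField (K' i) := fun _ => inferInstanceAs (NumberField K)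
  let π' : ∀ i, K' i := fun _ => π
  let toΩ : Emb K' → (K →+* PadicAlgCl p) := fun x => ip.comp (lft x.2)
  have hbij : Function.Bijective (fun χ : K →+* ℂ => ip.comp (lft χ)) := comp_lft_bijective ip
  have hbij' : Function.Bijective toΩ := by
    constructor
    · rintro ⟨⟨⟩, χ⟩ ⟨⟨⟩, χ'⟩ h
      have h1 : χ = χ' := hbij.1 h
      rw [h1]
    · intro ψ
      obtain ⟨χ, hχ⟩ := hbij.2 ψ
      exact ⟨⟨(), χ⟩, hχ⟩
  have hweil' : ∀ i, ∀ χ : K' i →+* ℂ, ‖χ (π' i)‖ ^ 2 = (p ^ a : ℕ) := fun _ χ => hweil χ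
  have hgen' : ∀ i, Algebra.adjoin ℚ {π' i} = ⊤ := fun _ => hgen
  have hfix : ∀ x : Emb K', x.2 (π' x.1) ^ 2 ≠ ((p ^ a : ℕ) : ℂ) := by
    rintro ⟨i, χ⟩ h
    apply hne
    apply (show Function.Injective (χ : K →+* ℂ) from χ.injective)
    rw [map_pow, map_natCast]
    exact h
  refine tate_eq hF (by exact_mod_cast hq) hn j fun S hS hcard hprod => ?_
  refine exists_pairing (K := K') (π := π') hq hweil' hfix ?_ hn S
    (fun μ hμ => ⟨(), heig μ (hS μ hμ)⟩) hcard hprod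
  intro j n hn S hcard hprod
  refine count_eq hq hweil' hgen' ip (norm_q_pos p a) (norm_q_lt p ha) (fun x => w (toΩ x))
    (fun x => hslope (toΩ x)) ?_ hn S hcard hprod
  intro hwinv c hc hrel
  have hcomm := eperm_comm (K := K') hq hweil' hgen'
  have hconj : ∀ x : Emb K', (einv x).2 (π' (einv x).1) = (p ^ a : ℕ) / x.2 (π' x.1) :=
    fun x => conj_eq hq hweil' x.1 x.2
  have hx0 : ∀ x : Emb K', x.2 (π' x.1) ≠ 0 := by
    intro x h0
    have h1 := hweil' x.1 x.2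
    rw [h0, norm_zero] at h1
    apply hq
    have h3 : (0 : ℝ) = (p ^ a : ℕ) := by
      rw [← h1]
      ring
    exact_mod_cast h3.symm
  let Φ : Finset (Emb K') := univ.filter fun x => 0 < (x.2 (π' x.1)).im
  have hΦm : ∀ x, x ∈ Φ ↔ 0 < (x.2 (π' x.1)).im := fun x => by
    rw [mem_filter]
    exact and_iff_right (mem_univ x)
  have him : ∀ x : Emb K', (x.2 (π' x.1)).im ≠ 0 := by
    intro x h5
    apply hfix x
    have h6 := conj_eq hq hweil' x.1 x.2
    rw [Complex.conj_eq_iff_im.mpr h5, eq_div_iff (hx0 x)] at h6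
    rw [sq]
    exact h6
  have hΦ : ∀ x, einv x ∈ Φ ↔ x ∉ Φ := by
    intro x
    rw [hΦm, hΦm]
    have h3 : ((einv x).2 (π' (einv x).1)).im = - (x.2 (π' x.1)).im := rfl
    rw [h3]
    constructor
    · intro h5 h6
      linarith
    · intro h5
      have h6 : (x.2 (π' x.1)).im < 0 := lt_of_le_of_ne (not_lt.mp h5) (him x)
      linarith
  have hcardX : Fintype.card (Emb K') = 2 * ℓ ^ k := by
    rw [← hdeg, ← NumberField.Embeddings.card K (PadicAlgCl p)]
    exact Fintype.card_of_bijective hbij'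
  refine prime_power_criterion (egal K') (fun x y => htr_of_conj x y rfl) einv einv_einv hcomm
    Φ hΦ ℓ k hcardX (fun x => w (toΩ x)) hwinv ?_ c hc hrel
  intro ε hε hdvd
  let T₀ : Finset (Emb K') := univ.filter fun x =>
    (x ∈ Φ ∧ ε x = 1) ∨ (x ∉ Φ ∧ ε (einv x) = -1)
  have hT₀m : ∀ x, x ∈ T₀ ↔ (x ∈ Φ ∧ ε x = 1) ∨ (x ∉ Φ ∧ ε (einv x) = -1) := fun x => by
    rw [mem_filter]
    exact and_iff_right (mem_univ x)
  have hT₀ : ∀ x, einv x ∈ T₀ ↔ x ∉ T₀ := by
    intro x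
    rw [hT₀m, hT₀m, einv_einv, hΦ]
    rcases hε x with h1 | h1 <;> rcases hε (einv x) with h2 | h2 <;> rw [h1, h2] <;>
      by_cases h3 : x ∈ Φ <;> simp [h3]
  apply hsign (T₀.image toΩ)
  · intro ψ ψ' hψ
    obtain ⟨x, rfl⟩ := hbij'.2 ψ
    obtain ⟨x', rfl⟩ := hbij'.2 ψ'
    have h1 : x' = einv x := by
      have h2 : ip (lft x.2 (π' x.1) * lft x'.2 (π' x'.1)) = ip ((p ^ a : ℕ) : AA) := by
        rw [map_mul, map_natCast]
        exact hψ
      have h3 := congrArg (fun z : AA => (z : ℂ)) (ip.injective h2)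
      have h4 : x.2 (π' x.1) * x'.2 (π' x'.1) = ((p ^ a : ℕ) : ℂ) := by
        have h5 : (((p ^ a : ℕ) : AA) : ℂ) = ((p ^ a : ℕ) : ℂ) := by push_cast; rfl
        rw [← h5]
        exact h3
      have h5 : x'.2 (π' x'.1) = (einv x).2 (π' (einv x).1) := by
        rw [hconj, eq_div_iff (hx0 x), mul_comm]
        exact h4
      obtain ⟨⟨⟩, χ⟩ := x
      obtain ⟨⟨⟩, χ'⟩ := x'
      have h6 : χ' = (starRingEnd ℂ).comp χ := emb_ext (K := K') (π := π') (i := ()) hgen h5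
      rw [h6]
      rfl
    rw [h1, mem_image, mem_image]
    have h2 : ∀ y, (∃ a ∈ T₀, toΩ a = toΩ y) ↔ y ∈ T₀ := by
      intro y
      constructor
      · rintro ⟨b, hb, hb'⟩
        rw [← hbij'.1 hb']
        exact hb
      · intro h
        exact ⟨y, h, rfl⟩
    rw [h2, h2, hT₀, not_not]
  · rw [sum_image fun x _ y _ h => hbij'.1 h]
    have h1 : ∑ x ∈ T₀, w (toΩ x) = ∑ x ∈ Φ, ε x * w (toΩ x) := by
      rw [← sum_filter_add_sum_filter_not T₀ (fun x => x ∈ Φ)]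
      have h2 : ∑ x ∈ T₀.filter (fun x => x ∉ Φ), w (toΩ x) =
          ∑ x ∈ Φ.filter (fun x => ¬ ε x = 1), ε x * w (toΩ x) := by
        refine sum_bij' (fun x _ => einv x) (fun x _ => einv x) ?_ ?_ ?_ ?_ ?_
        · intro x hx
          rw [mem_filter, hT₀m] at hx
          obtain ⟨hx1, hx2⟩ := hx
          rw [mem_filter, hΦ]
          refine ⟨hx2, ?_⟩
          rcases hx1 with ⟨h3, -⟩ | ⟨-, h3⟩
          · exact absurd h3 hx2
          · rw [h3]
            decide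
        · intro x hx
          rw [mem_filter] at hx
          rw [mem_filter, hT₀m, einv_einv, hΦ]
          have h3 : ε x = -1 := (hε x).resolve_left hx.2
          exact ⟨Or.inr ⟨not_not.mpr hx.1, h3⟩, not_not.mpr hx.1⟩
        · intro x _
          exact einv_einv x
        · intro x _
          exact einv_einv x
        · intro x hx
          rw [mem_filter, hT₀m] at hx
          obtain ⟨hx1, hx2⟩ := hx
          have h3 : ε (einv x) = -1 := by
            rcases hx1 with ⟨h3, -⟩ | ⟨-, h3⟩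
            · exact absurd h3 hx2
            · exact h3
          have h4 := hwinv x
          rw [h3, h4]
          ring
      have h3 : ∑ x ∈ T₀.filter (fun x => x ∈ Φ), w (toΩ x) =
          ∑ x ∈ Φ.filter (fun x => ε x = 1), ε x * w (toΩ x) := by
        refine sum_congr ?_ ?_
        · ext x
          constructor
          · intro hx
            obtain ⟨h3, h4⟩ := mem_filter.mp hx
            rcases (hT₀m x).mp h3 with h5 | h5
            · exact mem_filter.mpr h5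
            · exact absurd h4 h5.1
          · intro hx
            obtain ⟨h3, h4⟩ := mem_filter.mp hx
            exact mem_filter.mpr ⟨(hT₀m x).mpr (Or.inl ⟨h3, h4⟩), h3⟩
        · intro x hx
          rw [mem_filter] at hx
          rw [hx.2, one_mul]
      rw [h2, h3]
      exact sum_filter_add_sum_filter_not Φ (fun x => ε x = 1) fun x => ε x * w (toΩ x)
    rw [h1]
    exact hdvd

end Pool.Agent.FrobTate
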