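import Pool.Agent.FrobTate.Arith
import Pool.Agent.FrobTate.Monomial

/-!
# From relations between complex numbers to Tate classes
-/

namespace Pool.Agent.FrobTate

open Finset Module

variable {ι : Type} [Fintype ι] {K : ι → Type} [∀ i, Field (K i)] [∀ i, NumberField (K i)]
  {π : ∀ i, K i} {q : ℕ}

section Transfer

variable {𝕂 : Type*} [Field 𝕂] [CharZero 𝕂]

variable (K π 𝕂) in
theorem exists_label :
    ∃ (J : algebraicClosure ℚ 𝕂 →+* ℂ), ∀ μ : 𝕂, (∃ i, ∃ χ : K i →+* 𝕂, χ (π i) = μ) →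
      ∃ (h : μ ∈ algebraicClosure ℚ 𝕂) (x : Emb K), x.2 (π x.1) = J ⟨μ, h⟩ := by
  have halg : Algebra.IsAlgebraic ℚ (algebraicClosure ℚ 𝕂) := algebraicClosure.isAlgebraic ℚ 𝕂
  let J : algebraicClosure ℚ 𝕂 →+* ℂ :=
    (IsAlgClosed.lift (R := ℚ) (S := algebraicClosure ℚ 𝕂) (M := ℂ)).toRingHom
  refine ⟨J, ?_⟩
  rintro μ ⟨i, χ, rfl⟩
  have hmem : ∀ a, χ a ∈ algebraicClosure ℚ 𝕂 := by
    intro a
    rw [mem_algebraicClosure_iff]
    exact IsAlgebraic.algHom χ.toRatAlgHom (Algebra.IsAlgebraic.isAlgebraic (R := ℚ) a)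
  exact ⟨hmem _, ⟨i, J.comp (χ.codRestrict (algebraicClosure ℚ 𝕂) hmem)⟩, rfl⟩

theorem exists_pairing (hq : q ≠ 0) (hweil : ∀ i, ∀ χ : K i →+* ℂ, ‖χ (π i)‖ ^ 2 = q)
    (hfix : ∀ x : Emb K, x.2 (π x.1) ^ 2 ≠ q) [DecidableEq (Emb K)]
    (hcount : ∀ {j n : ℕ}, n ≠ 0 → ∀ S : Multiset (Emb K), S.card = 2 * j →
      (S.map fun x => x.2 (π x.1)).prod ^ n = (q : ℂ) ^ (n * j) → ∀ x,
      S.count (einv x) = S.count x) {j n : ℕ} (hn : n ≠ 0) (S : Multiset 𝕂)
    (hS : ∀ μ ∈ S, ∃ i, ∃ χ : K i →+* 𝕂, χ (π i) = μ) (hcard : S.card = 2 * j)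
    (hprod : S.prod ^ n = (q : 𝕂) ^ (n * j)) :
    ∃ m : Multiset 𝕂, S = m + m.map fun μ => (q : 𝕂) / μ := by
  classical
  have hq' : (q : 𝕂) ≠ 0 := by exact_mod_cast hq
  obtain ⟨J, hJ⟩ := exists_label K π 𝕂
  have h0 : ∀ μ ∈ S, μ ≠ 0 := by
    intro μ hμ h0
    rw [h0] at hμ
    rw [Multiset.prod_eq_zero hμ, zero_pow hn] at hprod
    exact pow_ne_zero _ hq' hprod.symm
  -- the labels
  have hlab : ∀ μ : 𝕂, ∃ x : Option (Emb K), μ ∈ S → ∃ y, x = some y ∧
      ∃ h : μ ∈ algebraicClosure ℚ 𝕂, y.2 (π y.1) = J ⟨μ, h⟩ := by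
    intro μ
    by_cases hμ : μ ∈ S
    · obtain ⟨h, x, hx⟩ := hJ μ (hS μ hμ)
      exact ⟨some x, fun _ => ⟨x, rfl, h, hx⟩⟩
    · exact ⟨none, fun h => absurd h hμ⟩
  choose lab₀ hlab₀ using hlab
  by_cases hE : Nonempty (Emb K)
  swap
  · have h1 : S = 0 := by
      refine Multiset.eq_zero_of_forall_notMem fun μ hμ => ?_
      obtain ⟨y, -⟩ := hlab₀ μ hμ
      exact hE ⟨y⟩
    exact ⟨0, by rw [h1]; simp⟩
  let lab : 𝕂 → Emb K := fun μ => (lab₀ μ).getD (Classical.choice hE)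
  have hlab : ∀ μ ∈ S, ∃ h : μ ∈ algebraicClosure ℚ 𝕂, (lab μ).2 (π (lab μ).1) = J ⟨μ, h⟩ := by
    intro μ hμ
    obtain ⟨y, hy, h, hyJ⟩ := hlab₀ μ hμ
    have h1 : lab μ = y := by
      change (lab₀ μ).getD _ = y
      rw [hy]
      rfl
    exact ⟨h, by rw [h1]; exact hyJ⟩
  have hinj : ∀ μ ∈ S, ∀ ν ∈ S, lab μ = lab ν → μ = ν := by
    intro μ hμ ν hν h
    obtain ⟨h1, h2⟩ := hlab μ hμ
    obtain ⟨h3, h4⟩ := hlab ν hν
    rw [h, h4] at h2
    have h5 := J.injective h2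
    exact (congrArg Subtype.val h5).symm
  -- the product
  have hprod' : ((S.map lab).map fun x => x.2 (π x.1)).prod ^ n = (q : ℂ) ^ (n * j) := by
    have h1 : ∀ T : Multiset 𝕂, (∀ μ ∈ T, μ ∈ S) → ∃ h : T.prod ∈ algebraicClosure ℚ 𝕂,
        ((T.map lab).map fun x => x.2 (π x.1)).prod = J ⟨T.prod, h⟩ := by
      intro T
      induction T using Multiset.induction_on with
      | empty =>
        intro _
        refine ⟨by simp, ?_⟩
        simp only [Multiset.map_zero, Multiset.prod_zero]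
        exact (map_one J).symm
      | cons a T ih =>
        intro hT
        obtain ⟨h2, h3⟩ := ih fun x hx => hT x (Multiset.mem_cons_of_mem hx)
        obtain ⟨h4, h5⟩ := hlab a (hT a (Multiset.mem_cons_self _ _))
        refine ⟨by rw [Multiset.prod_cons]; exact mul_mem h4 h2, ?_⟩
        simp only [Multiset.map_cons, Multiset.prod_cons]
        rw [h3, h5, ← map_mul]
        rfl
    obtain ⟨h2, h3⟩ := h1 S fun _ h => h
    rw [h3, ← map_pow]
    have h4 : (⟨S.prod, h2⟩ : algebraicClosure ℚ 𝕂) ^ n = (q : algebraicClosure ℚ 𝕂) ^ (n * j) := by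
      apply Subtype.ext
      push_cast
      exact hprod
    rw [h4, map_pow, map_natCast]
  have hcnt := hcount hn (S.map lab) (by rw [Multiset.card_map]; exact hcard) hprod'
  have hS' : ∀ μ ∈ S, (S.map lab).count (lab μ) = S.count μ := by
    intro μ hμ
    exact Multiset.count_map_eq_count lab S (fun a ha b hb h => hinj a ha b hb h) μ hμ
  -- the partner
  have hpart : ∀ μ ∈ S, ((q : 𝕂) / μ) ∈ S ∧ lab ((q : 𝕂) / μ) = einv (lab μ) := by
    intro μ hμ
    have h1 : 0 < (S.map lab).count (einv (lab μ)) := by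
      rw [hcnt, hS' μ hμ]
      exact Multiset.count_pos.mpr hμ
    obtain ⟨ν, hν, hν'⟩ := Multiset.mem_map.mp (Multiset.count_pos.mp h1)
    obtain ⟨h2, h3⟩ := hlab μ hμ
    obtain ⟨h4, h5⟩ := hlab ν hν
    have h6 : J ⟨ν, h4⟩ = q / J ⟨μ, h2⟩ := by
      rw [← h5, hν', ← h3]
      exact conj_eq hq hweil _ _
    have h7 : (⟨ν, h4⟩ : algebraicClosure ℚ 𝕂) = q / ⟨μ, h2⟩ := by
      apply J.injective
      rw [h6, map_div₀, map_natCast]
    have h8 : ν = (q : 𝕂) / μ := by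
      have := congrArg Subtype.val h7
      simpa using this
    rw [← h8]
    exact ⟨hν, hν'⟩
  have hcnt' : ∀ μ ∈ S, S.count ((q : 𝕂) / μ) = S.count μ := by
    intro μ hμ
    obtain ⟨h1, h2⟩ := hpart μ hμ
    rw [← hS' μ hμ, ← hS' _ h1, h2, hcnt]
  have hgg : ∀ μ ∈ S, (q : 𝕂) / ((q : 𝕂) / μ) = μ := by
    intro μ hμ
    have := h0 μ hμ
    field_simp
  -- the upper half plane
  let P : 𝕂 → Prop := fun μ => 0 < ((lab μ).2 (π (lab μ).1)).im
  have hP : ∀ μ ∈ S, (P ((q : 𝕂) / μ) ↔ ¬ P μ) := by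
    intro μ hμ
    obtain ⟨h1, h2⟩ := hpart μ hμ
    change 0 < ((lab ((q : 𝕂) / μ)).2 (π (lab ((q : 𝕂) / μ)).1)).im ↔
      ¬ 0 < ((lab μ).2 (π (lab μ).1)).im
    rw [h2]
    have h3 : ((einv (lab μ)).2 (π (einv (lab μ)).1)).im = - ((lab μ).2 (π (lab μ).1)).im := rfl
    rw [h3]
    have h4 : ((lab μ).2 (π (lab μ).1)).im ≠ 0 := by
      intro h5
      apply hfix (lab μ)
      have h6 := conj_eq hq hweil (lab μ).1 (lab μ).2
      rw [Complex.conj_eq_iff_im.mpr h5] at h6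
      have h7 : (lab μ).2 (π (lab μ).1) ≠ 0 := by
        intro h8
        rw [h8, div_zero] at h6
        have h9 := hweil (lab μ).1 (lab μ).2
        rw [h8, norm_zero] at h9
        apply hq
        have h10 : (0 : ℝ) = q := by
          rw [← h9]
          ring
        exact_mod_cast h10.symm
      rw [sq]
      rw [eq_div_iff h7] at h6
      exact h6
    constructor
    · intro h5 h6
      linarith
    · intro h5
      have h6 : ((lab μ).2 (π (lab μ).1)).im < 0 := lt_of_le_of_ne (not_lt.mp h5) h4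
      linarith
  refine ⟨S.filter P, ?_⟩
  have hmap : (S.filter P).map (fun μ => (q : 𝕂) / μ) = S.filter fun μ => ¬ P μ := by
    rw [Multiset.ext]
    intro ν
    by_cases hν : ν ∈ S
    · obtain ⟨h1, h2⟩ := hpart ν hν
      by_cases h3 : P ((q : 𝕂) / ν)
      · have h4 : (q : 𝕂) / ν ∈ S.filter P := Multiset.mem_filter.mpr ⟨h1, h3⟩
        have h5 := Multiset.count_map_eq_count (fun μ => (q : 𝕂) / μ) (S.filter P) (by
          intro a ha b hb hab
          have ha' := (Multiset.mem_filter.mp ha).1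
          have hb' := (Multiset.mem_filter.mp hb).1
          have hab' : (q : 𝕂) / a = (q : 𝕂) / b := hab
          rw [← hgg a ha', hab', hgg b hb']) ((q : 𝕂) / ν) h4
        simp only [hgg ν hν] at h5
        rw [h5, Multiset.count_filter, if_pos h3, Multiset.count_filter,
          if_pos ((hP ν hν).mp h3), hcnt' ν hν]
      · have h4 : ¬ ¬ P ν := fun h => h3 ((hP ν hν).mpr h)
        rw [Multiset.count_filter, if_neg h4]
        refine Multiset.count_eq_zero_of_notMem fun h5 => ?_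
        obtain ⟨μ, hμ, hμν⟩ := Multiset.mem_map.mp h5
        obtain ⟨h6, h7⟩ := Multiset.mem_filter.mp hμ
        apply h3
        have hμν' : (q : 𝕂) / μ = ν := hμν
        rw [← hμν', hgg μ h6]
        exact h7
    · rw [Multiset.count_eq_zero_of_notMem fun h => hν (Multiset.mem_of_mem_filter h)]
      refine Multiset.count_eq_zero_of_notMem fun h5 => ?_
      obtain ⟨μ, hμ, hμν⟩ := Multiset.mem_map.mp h5
      have h6 := (Multiset.mem_filter.mp hμ).1
      apply hν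
      have hμν' : (q : 𝕂) / μ = ν := hμν
      rw [← hμν']
      exact (hpart μ h6).1
  rw [hmap, Multiset.filter_add_not]

end Transfer

end Pool.Agent.FrobTate
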